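import Mathlib

/-!
# Auxiliary results on projective Banach modules over `K(ℓ¹)` and `K(ℓ^∞)`

The abstract part of the proof that `K(ℓ¹)` is not left projective and `K(ℓ^∞)` is not right
projective.

Idea of the proof. A lifting `ρ : K(E) → B(E) ⊗ K(E)` (resp. `K(E) → K(E) ⊗ B(E)`) produces
linear maps `R` on `ℓ^∞` which are absolutely summing and which converge strongly to the identity.
For `E = ℓ¹` this happens along a sequence. For `E = ℓ^∞` one takes a limit along an ultrafilter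
which is the identity on `c₀`, and therefore (Phillips, Whitley) on all but countably many
members of an uncountable almost disjoint family. In both cases a single absolutely summing map
would be close to the identity on infinitely many members of an almost disjoint family of
indicator functions, which is impossible.
-/

open scoped ENNReal Topology
open Filter Set

set_option linter.unusedSectionVars false
set_option maxSynthPendingDepth 5

namespace Pool.Agent.Helper85.CompactHered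

universe u v w

section Modules

variable (A : Type u) [NonUnitalNormedRing A] [NormedSpace ℂ A]

/-- A left Banach `A`-module: a complex Banach space `carrier` with a bounded bilinear action
`(a, x) ↦ act a x` of `A` satisfying `(a b) x = a (b x)`. -/
structure LeftBanachModule where
  carrier : Type v
  [normed : NormedAddCommGroup carrier]
  [space : NormedSpace ℂ carrier]
  [complete : CompleteSpace carrier]
  act : A →L[ℂ] carrier →L[ℂ] carrier
  act_mul : ∀ (a b : A) (x : carrier), act (a * b) x = act a (act b x)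

/-- A right Banach `A`-module: a complex Banach space `carrier` with a bounded bilinear action
`(a, x) ↦ act a x` (to be read as `x a`) of `A` satisfying `x (a b) = (x a) b`. -/
structure RightBanachModule where
  carrier : Type v
  [normed : NormedAddCommGroup carrier]
  [space : NormedSpace ℂ carrier]
  [complete : CompleteSpace carrier]
  act : A →L[ℂ] carrier →L[ℂ] carrier
  act_mul : ∀ (a b : A) (x : carrier), act (a * b) x = act b (act a x)

attribute [instance] LeftBanachModule.normed LeftBanachModule.space LeftBanachModule.complete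
attribute [instance] RightBanachModule.normed RightBanachModule.space RightBanachModule.complete

variable {A}

/-- The bounded linear map `f : X → Y` is a morphism of left `A`-modules. -/
def LeftBanachModule.IsMorphism (X : LeftBanachModule.{u, v} A) (Y : LeftBanachModule.{u, w} A)
    (f : X.carrier →L[ℂ] Y.carrier) : Prop :=
  ∀ (a : A) (x : X.carrier), f (X.act a x) = Y.act a (f x)

/-- The bounded linear map `f : X → Y` is a morphism of right `A`-modules. -/
def RightBanachModule.IsMorphism (X : RightBanachModule.{u, v} A) (Y : RightBanachModule.{u, w} A)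
    (f : X.carrier →L[ℂ] Y.carrier) : Prop :=
  ∀ (a : A) (x : X.carrier), f (X.act a x) = Y.act a (f x)

/-- The left Banach module `P` is projective (in the relative sense of Banach homology): for every
morphism `σ : X → Y` of left Banach modules which has a bounded linear right inverse `τ`, every
morphism `φ : P → Y` factors as `φ = σ ψ` with a morphism `ψ : P → X`. -/
def LeftBanachModule.IsProjective (P : LeftBanachModule.{u, v} A) : Prop :=
  ∀ (X Y : LeftBanachModule.{u, v} A) (σ : X.carrier →L[ℂ] Y.carrier),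
    LeftBanachModule.IsMorphism X Y σ →
    (∃ τ : Y.carrier →L[ℂ] X.carrier, ∀ y, σ (τ y) = y) →
    ∀ φ : P.carrier →L[ℂ] Y.carrier, LeftBanachModule.IsMorphism P Y φ →
      ∃ ψ : P.carrier →L[ℂ] X.carrier, LeftBanachModule.IsMorphism P X ψ ∧
        ∀ p, σ (ψ p) = φ p

/-- The right Banach module `P` is projective (in the relative sense of Banach homology). -/
def RightBanachModule.IsProjective (P : RightBanachModule.{u, v} A) : Prop :=
  ∀ (X Y : RightBanachModule.{u, v} A) (σ : X.carrier →L[ℂ] Y.carrier),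
    RightBanachModule.IsMorphism X Y σ →
    (∃ τ : Y.carrier →L[ℂ] X.carrier, ∀ y, σ (τ y) = y) →
    ∀ φ : P.carrier →L[ℂ] Y.carrier, RightBanachModule.IsMorphism P Y φ →
      ∃ ψ : P.carrier →L[ℂ] X.carrier, RightBanachModule.IsMorphism P X ψ ∧
        ∀ p, σ (ψ p) = φ p

variable (A) [IsScalarTower ℂ A A] [SMulCommClass ℂ A A] [CompleteSpace A]

/-- `A` as a left Banach module over itself. -/
noncomputable def leftRegular : LeftBanachModule.{u, u} A where
  carrier := A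
  act := ContinuousLinearMap.mul ℂ A
  act_mul := fun a b x => mul_assoc a b x

/-- `A` as a right Banach module over itself. -/
noncomputable def rightRegular : RightBanachModule.{u, u} A where
  carrier := A
  act := (ContinuousLinearMap.mul ℂ A).flip
  act_mul := fun a b x => (mul_assoc x a b).symm

variable {A}

/-- a closed submodule of a left Banach module -/
noncomputable def LeftBanachModule.sub (W : LeftBanachModule.{u, v} A) (S : Submodule ℂ W.carrier)
    (hS : IsClosed (S : Set W.carrier)) (hinv : ∀ a, ∀ x ∈ S, W.act a x ∈ S) :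
    LeftBanachModule.{u, v} A where
  carrier := S
  complete := hS.completeSpace_coe
  act := LinearMap.mkContinuous₂
    (LinearMap.mk₂ ℂ (fun (a : A) (x : S) => (⟨W.act a x, hinv a x x.2⟩ : S))
      (fun a b x => Subtype.ext (by simp))
      (fun c a x => Subtype.ext (by simp))
      (fun a x y => Subtype.ext (by simp))
      (fun c a x => Subtype.ext (by simp))) ‖W.act‖
    (by intro a x; exact W.act.le_opNorm₂ a x)
  act_mul := fun a b x => Subtype.ext (W.act_mul a b x)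

noncomputable def RightBanachModule.sub (W : RightBanachModule.{u, v} A) (S : Submodule ℂ W.carrier)
    (hS : IsClosed (S : Set W.carrier)) (hinv : ∀ a, ∀ x ∈ S, W.act a x ∈ S) :
    RightBanachModule.{u, v} A where
  carrier := S
  complete := hS.completeSpace_coe
  act := LinearMap.mkContinuous₂
    (LinearMap.mk₂ ℂ (fun (a : A) (x : S) => (⟨W.act a x, hinv a x x.2⟩ : S))
      (fun a b x => Subtype.ext (by simp))
      (fun c a x => Subtype.ext (by simp))
      (fun a x y => Subtype.ext (by simp))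
      (fun c a x => Subtype.ext (by simp))) ‖W.act‖
    (by intro a x; exact W.act.le_opNorm₂ a x)
  act_mul := fun a b x => Subtype.ext (W.act_mul a b x)

end Modules


/-- Auxiliary data: a normed algebra `A` identified isometrically with `K(E)`. -/
structure KData (E : Type u) [NormedAddCommGroup E] [NormedSpace ℂ E]
    (A : Type v) [NonUnitalNormedRing A] [NormedSpace ℂ A] where
  i : A →L[ℂ] (E →L[ℂ] E)
  norm_i : ∀ a, ‖i a‖ = ‖a‖
  i_mul : ∀ a b, i (a * b) = i a * i b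
  compact : ∀ a, IsCompactOperator (i a)
  rk : E → (E →L[ℂ] ℂ) → A
  i_rk : ∀ x φ, i (rk x φ) = φ.smulRight x
  mulL : (E →L[ℂ] E) →L[ℂ] A →L[ℂ] A
  i_mulL : ∀ b a, i (mulL b a) = b * i a
  mulR : A →L[ℂ] (E →L[ℂ] E) →L[ℂ] A
  i_mulR : ∀ a b, i (mulR a b) = i a * b

namespace KData

variable {E : Type u} [NormedAddCommGroup E] [NormedSpace ℂ E]
    {A : Type u} [NonUnitalNormedRing A] [NormedSpace ℂ A] (d : KData E A)

include d in
lemma inj {a b : A} (h : d.i a = d.i b) : a = b := by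
  have h1 : ‖d.i (a - b)‖ = ‖a - b‖ := d.norm_i _
  rw [map_sub, h, sub_self, norm_zero] at h1
  exact sub_eq_zero.mp (norm_eq_zero.mp h1.symm)

end KData

section Tensor

/-- The elementary tensor `a ⊗ b` as a functional on bilinear forms. -/
noncomputable def ev {A₁ A₂ : Type*} [NormedAddCommGroup A₁] [NormedSpace ℂ A₁]
    [NormedAddCommGroup A₂] [NormedSpace ℂ A₂] (a : A₁) (b : A₂) :
    (A₁ →L[ℂ] A₂ →L[ℂ] ℂ) →L[ℂ] ℂ :=
  (ContinuousLinearMap.apply ℂ ℂ b).comp (ContinuousLinearMap.apply ℂ (A₂ →L[ℂ] ℂ) a)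

lemma ev_apply {A₁ A₂ : Type*} [NormedAddCommGroup A₁] [NormedSpace ℂ A₁]
    [NormedAddCommGroup A₂] [NormedSpace ℂ A₂] (a : A₁) (b : A₂) (β : A₁ →L[ℂ] A₂ →L[ℂ] ℂ) :
    ev a b β = β a b := rfl

variable {E : Type u} [NormedAddCommGroup E] [NormedSpace ℂ E] [CompleteSpace E]
    {A : Type u} [NonUnitalNormedRing A] [NormedSpace ℂ A] [IsScalarTower ℂ A A]
    [SMulCommClass ℂ A A] [CompleteSpace A] (d : KData E A)

/-- left multiplication `a ↦ c a`. -/
noncomputable def Lmul (c : E →L[ℂ] E) : (E →L[ℂ] E) →L[ℂ] (E →L[ℂ] E) :=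
  ContinuousLinearMap.mul ℂ (E →L[ℂ] E) c

/-- right multiplication `a ↦ a c`. -/
noncomputable def Rmul (c : E →L[ℂ] E) : (E →L[ℂ] E) →L[ℂ] (E →L[ℂ] E) :=
  (ContinuousLinearMap.mul ℂ (E →L[ℂ] E)).flip c

/-- The ambient left module for the test module -/
noncomputable def WL : LeftBanachModule.{u, u} A where
  carrier := (((E →L[ℂ] E) →L[ℂ] A →L[ℂ] ℂ) →L[ℂ] ℂ) × A
  act := (ContinuousLinearMap.prodMapL ℂ (((E →L[ℂ] E) →L[ℂ] A →L[ℂ] ℂ) →L[ℂ] ℂ)
      (((E →L[ℂ] E) →L[ℂ] A →L[ℂ] ℂ) →L[ℂ] ℂ) A A).comp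
    (((ContinuousLinearMap.compL ℂ ((E →L[ℂ] E) →L[ℂ] A →L[ℂ] ℂ)
        ((E →L[ℂ] E) →L[ℂ] A →L[ℂ] ℂ) ℂ).flip.comp
      ((ContinuousLinearMap.compL ℂ (E →L[ℂ] E) (E →L[ℂ] E) (A →L[ℂ] ℂ)).flip.comp
        ((ContinuousLinearMap.mul ℂ (E →L[ℂ] E)).comp d.i))).prod
      (ContinuousLinearMap.mul ℂ A))
  act_mul := by
    intro a b x
    refine Prod.ext ?_ ?_
    · ext β
      show x.1 _ = x.1 _
      congr 1
      ext a' b'
      show β (d.i (a * b) * a') b' = β (d.i a * (d.i b * a')) b'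
      rw [d.i_mul, mul_assoc]
    · exact mul_assoc a b x.2

/-- The ambient right module for the test module -/
noncomputable def WR : RightBanachModule.{u, u} A where
  carrier := ((A →L[ℂ] (E →L[ℂ] E) →L[ℂ] ℂ) →L[ℂ] ℂ) × A
  act := (ContinuousLinearMap.prodMapL ℂ ((A →L[ℂ] (E →L[ℂ] E) →L[ℂ] ℂ) →L[ℂ] ℂ)
      ((A →L[ℂ] (E →L[ℂ] E) →L[ℂ] ℂ) →L[ℂ] ℂ) A A).comp
    (((ContinuousLinearMap.compL ℂ (A →L[ℂ] (E →L[ℂ] E) →L[ℂ] ℂ)
        (A →L[ℂ] (E →L[ℂ] E) →L[ℂ] ℂ) ℂ).flip.comp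
      ((ContinuousLinearMap.compL ℂ A ((E →L[ℂ] E) →L[ℂ] ℂ) ((E →L[ℂ] E) →L[ℂ] ℂ)).comp
        ((ContinuousLinearMap.compL ℂ (E →L[ℂ] E) (E →L[ℂ] E) ℂ).flip.comp
        ((ContinuousLinearMap.mul ℂ (E →L[ℂ] E)).flip.comp d.i)))).prod
      (ContinuousLinearMap.mul ℂ A).flip)
  act_mul := by
    intro a b x
    refine Prod.ext ?_ ?_
    · ext β
      show x.1 _ = x.1 _
      congr 1
      ext a' b'
      show β a' (b' * d.i (a * b)) = β a' ((b' * d.i a) * d.i b)
      rw [d.i_mul, mul_assoc]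
    · exact (mul_assoc x.2 a b).symm

/-- generators of the left test module. -/
noncomputable def genL (p : (E →L[ℂ] E) × A) : (WL d).carrier :=
  ((ev p.1 p.2, d.mulL p.1 p.2) : (((E →L[ℂ] E) →L[ℂ] A →L[ℂ] ℂ) →L[ℂ] ℂ) × A)

noncomputable def genR (p : A × (E →L[ℂ] E)) : (WR d).carrier :=
  ((ev p.1 p.2, d.mulR p.1 p.2) : ((A →L[ℂ] (E →L[ℂ] E) →L[ℂ] ℂ) →L[ℂ] ℂ) × A)

lemma act_genL (c : A) (p : (E →L[ℂ] E) × A) :
    (WL d).act c (genL d p) = genL d (d.i c * p.1, p.2) := by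
  refine Prod.ext ?_ ?_
  · ext β
    rfl
  · show c * d.mulL p.1 p.2 = d.mulL (d.i c * p.1) p.2
    apply d.inj
    rw [d.i_mul, d.i_mulL, d.i_mulL, mul_assoc]

lemma act_genR (c : A) (p : A × (E →L[ℂ] E)) :
    (WR d).act c (genR d p) = genR d (p.1, p.2 * d.i c) := by
  refine Prod.ext ?_ ?_
  · ext β
    rfl
  · show d.mulR p.1 p.2 * c = d.mulR p.1 (p.2 * d.i c)
    apply d.inj
    rw [d.i_mul, d.i_mulR, d.i_mulR, mul_assoc]

/-- carrier of the left test module -/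
noncomputable def SL : Submodule ℂ (WL d).carrier :=
  (Submodule.span ℂ (Set.range (genL d))).topologicalClosure

noncomputable def SR : Submodule ℂ (WR d).carrier :=
  (Submodule.span ℂ (Set.range (genR d))).topologicalClosure

lemma SL_inv (c : A) (x : (WL d).carrier) (hx : x ∈ SL d) : (WL d).act c x ∈ SL d := by
  have h : SL d ≤ (SL d).comap ((WL d).act c : (WL d).carrier →ₗ[ℂ] (WL d).carrier) := by
    apply Submodule.topologicalClosure_minimal
    · rw [Submodule.span_le]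
      rintro _ ⟨p, rfl⟩
      show (WL d).act c (genL d p) ∈ SL d
      rw [act_genL]
      exact Submodule.le_topologicalClosure _ (Submodule.subset_span ⟨_, rfl⟩)
    · exact (Submodule.isClosed_topologicalClosure _).preimage ((WL d).act c).continuous
  exact h hx

lemma SR_inv (c : A) (x : (WR d).carrier) (hx : x ∈ SR d) : (WR d).act c x ∈ SR d := by
  have h : SR d ≤ (SR d).comap ((WR d).act c : (WR d).carrier →ₗ[ℂ] (WR d).carrier) := by
    apply Submodule.topologicalClosure_minimal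
    · rw [Submodule.span_le]
      rintro _ ⟨p, rfl⟩
      show (WR d).act c (genR d p) ∈ SR d
      rw [act_genR]
      exact Submodule.le_topologicalClosure _ (Submodule.subset_span ⟨_, rfl⟩)
    · exact (Submodule.isClosed_topologicalClosure _).preimage ((WR d).act c).continuous
  exact h hx

/-- Consequence of left projectivity. -/
theorem exists_rho_left (h : (leftRegular A).IsProjective) :
    ∃ (ρ : A →L[ℂ] (((E →L[ℂ] E) →L[ℂ] A →L[ℂ] ℂ) →L[ℂ] ℂ)) (C : ℝ), 0 ≤ C ∧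
      (∀ T : A, ‖ρ T‖ ≤ C * ‖T‖) ∧
      (∀ (c T : A) (β : (E →L[ℂ] E) →L[ℂ] A →L[ℂ] ℂ),
        ρ (c * T) β = ρ T (β.comp (Lmul (d.i c)))) ∧
      (∀ T : A, ρ T ∈ (Submodule.span ℂ (Set.range
        (fun p : (E →L[ℂ] E) × A => ev p.1 p.2))).topologicalClosure) ∧
      (∀ (T : A) (f : A →L[ℂ] ℂ) (β : (E →L[ℂ] E) →L[ℂ] A →L[ℂ] ℂ),
        (∀ a b, β a b = f (d.mulL a b)) → ρ T β = f T) := by
  have hcl : IsClosed (SL d : Set (WL d).carrier) := Submodule.isClosed_topologicalClosure _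
  let X : LeftBanachModule.{u, u} A := (WL d).sub (SL d) hcl (fun a x hx => SL_inv d a x hx)
  let fstW : (WL d).carrier →L[ℂ] (((E →L[ℂ] E) →L[ℂ] A →L[ℂ] ℂ) →L[ℂ] ℂ) :=
    ContinuousLinearMap.fst ℂ (((E →L[ℂ] E) →L[ℂ] A →L[ℂ] ℂ) →L[ℂ] ℂ) A
  let sndW : (WL d).carrier →L[ℂ] A :=
    ContinuousLinearMap.snd ℂ (((E →L[ℂ] E) →L[ℂ] A →L[ℂ] ℂ) →L[ℂ] ℂ) A
  let σ : X.carrier →L[ℂ] (leftRegular A).carrier := sndW.comp (SL d).subtypeL
  have hσ : LeftBanachModule.IsMorphism X (leftRegular A) σ := fun a x => rfl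
  -- the bounded linear right inverse `T ↦ 1 ⊗ T`
  let τ0 : A →L[ℂ] (WL d).carrier :=
    ContinuousLinearMap.prod
      ((ContinuousLinearMap.compL ℂ ((E →L[ℂ] E) →L[ℂ] A →L[ℂ] ℂ) (A →L[ℂ] ℂ) ℂ).flip
        (ContinuousLinearMap.apply ℂ (A →L[ℂ] ℂ) (1 : E →L[ℂ] E)) |>.comp
          (ContinuousLinearMap.apply ℂ ℂ)) (ContinuousLinearMap.id ℂ A)
  have hτ0 : ∀ T, τ0 T = genL d (1, T) := by
    intro T
    refine Prod.ext ?_ ?_
    · ext β
      rfl
    · show T = d.mulL 1 T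
      apply d.inj
      rw [d.i_mulL, one_mul]
  have hτmem : ∀ T, τ0 T ∈ SL d := by
    intro T
    rw [hτ0]
    exact Submodule.le_topologicalClosure _ (Submodule.subset_span ⟨_, rfl⟩)
  let τ : (leftRegular A).carrier →L[ℂ] X.carrier := τ0.codRestrict (SL d) hτmem
  have hτ : ∀ y, σ (τ y) = y := fun y => rfl
  obtain ⟨ψ, hψ1, hψ2⟩ := h X (leftRegular A) σ hσ ⟨τ, hτ⟩ (ContinuousLinearMap.id ℂ A)
    (fun a x => rfl)
  let ψ' : A →L[ℂ] (WL d).carrier := (SL d).subtypeL.comp ψ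
  have hψ'mem : ∀ T, ψ' T ∈ SL d := fun T => (ψ T).2
  refine ⟨fstW.comp ψ', ‖fstW.comp ψ'‖, norm_nonneg (fstW.comp ψ'), (fstW.comp ψ').le_opNorm, ?_, ?_, ?_⟩
  · intro c T β
    have h1 : ψ (c * T) = X.act c (ψ T) := hψ1 c T
    have h2 : ψ' (c * T) = (WL d).act c (ψ' T) := congrArg Subtype.val h1
    show (ψ' (c * T)).1 β = (ψ' T).1 (β.comp (Lmul (d.i c)))
    rw [h2]
    rfl
  · intro T
    have h1 : SL d ≤ ((Submodule.span ℂ (Set.range
        (fun p : (E →L[ℂ] E) × A => ev p.1 p.2))).topologicalClosure).comap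
          (fstW : (WL d).carrier →ₗ[ℂ] (((E →L[ℂ] E) →L[ℂ] A →L[ℂ] ℂ) →L[ℂ] ℂ)) := by
      apply Submodule.topologicalClosure_minimal
      · rw [Submodule.span_le]
        rintro _ ⟨p, rfl⟩
        exact Submodule.le_topologicalClosure _ (Submodule.subset_span ⟨p, rfl⟩)
      · exact (Submodule.isClosed_topologicalClosure _).preimage fstW.continuous
    exact h1 (hψ'mem T)
  · intro T f β hβ
    have h1 : SL d ≤ LinearMap.ker
        ((((ContinuousLinearMap.apply ℂ ℂ β).comp fstW - f.comp sndW :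
          (WL d).carrier →L[ℂ] ℂ)) : (WL d).carrier →ₗ[ℂ] ℂ) := by
      apply Submodule.topologicalClosure_minimal
      · rw [Submodule.span_le]
        rintro _ ⟨p, rfl⟩
        show β p.1 p.2 - f (d.mulL p.1 p.2) = 0
        rw [hβ, sub_self]
      · exact ContinuousLinearMap.isClosed_ker
          ((ContinuousLinearMap.apply ℂ ℂ β).comp fstW - f.comp sndW)
    have h2 := h1 (hψ'mem T)
    have h3 : (ψ' T).1 β - f (ψ' T).2 = 0 := h2
    have h4 : (ψ' T).2 = T := hψ2 T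
    rw [h4] at h3
    exact sub_eq_zero.mp h3

/-- Consequence of right projectivity. -/
theorem exists_rho_right (h : (rightRegular A).IsProjective) :
    ∃ (ρ : A →L[ℂ] ((A →L[ℂ] (E →L[ℂ] E) →L[ℂ] ℂ) →L[ℂ] ℂ)) (C : ℝ), 0 ≤ C ∧
      (∀ T : A, ‖ρ T‖ ≤ C * ‖T‖) ∧
      (∀ (T c : A) (β β' : A →L[ℂ] (E →L[ℂ] E) →L[ℂ] ℂ),
        (∀ a b, β' a b = β a (b * d.i c)) → ρ (T * c) β = ρ T β') ∧
      (∀ T : A, ρ T ∈ (Submodule.span ℂ (Set.range
        (fun p : A × (E →L[ℂ] E) => ev p.1 p.2))).topologicalClosure) ∧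
      (∀ (T : A) (f : A →L[ℂ] ℂ) (β : A →L[ℂ] (E →L[ℂ] E) →L[ℂ] ℂ),
        (∀ a b, β a b = f (d.mulR a b)) → ρ T β = f T) := by
  have hcl : IsClosed (SR d : Set (WR d).carrier) := Submodule.isClosed_topologicalClosure _
  let X : RightBanachModule.{u, u} A := (WR d).sub (SR d) hcl (fun a x hx => SR_inv d a x hx)
  let fstW : (WR d).carrier →L[ℂ] ((A →L[ℂ] (E →L[ℂ] E) →L[ℂ] ℂ) →L[ℂ] ℂ) :=
    ContinuousLinearMap.fst ℂ ((A →L[ℂ] (E →L[ℂ] E) →L[ℂ] ℂ) →L[ℂ] ℂ) A
  let sndW : (WR d).carrier →L[ℂ] A :=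
    ContinuousLinearMap.snd ℂ ((A →L[ℂ] (E →L[ℂ] E) →L[ℂ] ℂ) →L[ℂ] ℂ) A
  let σ : X.carrier →L[ℂ] (rightRegular A).carrier := sndW.comp (SR d).subtypeL
  have hσ : RightBanachModule.IsMorphism X (rightRegular A) σ := fun a x => rfl
  -- the bounded linear right inverse `T ↦ T ⊗ 1`
  let τ0 : A →L[ℂ] (WR d).carrier :=
    ContinuousLinearMap.prod
      (((ContinuousLinearMap.compL ℂ (A →L[ℂ] (E →L[ℂ] E) →L[ℂ] ℂ) ((E →L[ℂ] E) →L[ℂ] ℂ) ℂ)
        (ContinuousLinearMap.apply ℂ ℂ (1 : E →L[ℂ] E))).comp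
          (ContinuousLinearMap.apply ℂ ((E →L[ℂ] E) →L[ℂ] ℂ))) (ContinuousLinearMap.id ℂ A)
  have hτ0 : ∀ T, τ0 T = genR d (T, 1) := by
    intro T
    refine Prod.ext ?_ ?_
    · ext β
      rfl
    · show T = d.mulR T 1
      apply d.inj
      rw [d.i_mulR, mul_one]
  have hτmem : ∀ T, τ0 T ∈ SR d := by
    intro T
    rw [hτ0]
    exact Submodule.le_topologicalClosure _ (Submodule.subset_span ⟨_, rfl⟩)
  let τ : (rightRegular A).carrier →L[ℂ] X.carrier := τ0.codRestrict (SR d) hτmem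
  have hτ : ∀ y, σ (τ y) = y := fun y => rfl
  obtain ⟨ψ, hψ1, hψ2⟩ := h X (rightRegular A) σ hσ ⟨τ, hτ⟩ (ContinuousLinearMap.id ℂ A)
    (fun a x => rfl)
  let ψ' : A →L[ℂ] (WR d).carrier := (SR d).subtypeL.comp ψ
  have hψ'mem : ∀ T, ψ' T ∈ SR d := fun T => (ψ T).2
  refine ⟨fstW.comp ψ', ‖fstW.comp ψ'‖, norm_nonneg (fstW.comp ψ'), (fstW.comp ψ').le_opNorm, ?_, ?_, ?_⟩
  · intro T c β β' hβ
    have h1 : ψ (T * c) = X.act c (ψ T) := hψ1 c T
    have h2 : ψ' (T * c) = (WR d).act c (ψ' T) := congrArg Subtype.val h1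
    show (ψ' (T * c)).1 β = (ψ' T).1 β'
    rw [h2]
    show (ψ' T).1 _ = (ψ' T).1 β'
    congr 1
    ext a b
    exact (hβ a b).symm
  · intro T
    have h1 : SR d ≤ ((Submodule.span ℂ (Set.range
        (fun p : A × (E →L[ℂ] E) => ev p.1 p.2))).topologicalClosure).comap
          (fstW : (WR d).carrier →ₗ[ℂ] ((A →L[ℂ] (E →L[ℂ] E) →L[ℂ] ℂ) →L[ℂ] ℂ)) := by
      apply Submodule.topologicalClosure_minimal
      · rw [Submodule.span_le]
        rintro _ ⟨p, rfl⟩
        exact Submodule.le_topologicalClosure _ (Submodule.subset_span ⟨p, rfl⟩)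
      · exact (Submodule.isClosed_topologicalClosure _).preimage fstW.continuous
    exact h1 (hψ'mem T)
  · intro T f β hβ
    have h1 : SR d ≤ LinearMap.ker
        ((((ContinuousLinearMap.apply ℂ ℂ β).comp fstW - f.comp sndW :
          (WR d).carrier →L[ℂ] ℂ)) : (WR d).carrier →ₗ[ℂ] ℂ) := by
      apply Submodule.topologicalClosure_minimal
      · rw [Submodule.span_le]
        rintro _ ⟨p, rfl⟩
        show β p.1 p.2 - f (d.mulR p.1 p.2) = 0
        rw [hβ, sub_self]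
      · exact ContinuousLinearMap.isClosed_ker
          ((ContinuousLinearMap.apply ℂ ℂ β).comp fstW - f.comp sndW)
    have h2 := h1 (hψ'mem T)
    have h3 : (ψ' T).1 β - f (ψ' T).2 = 0 := h2
    have h4 : (ψ' T).2 = T := hψ2 T
    rw [h4] at h3
    exact sub_eq_zero.mp h3

end Tensor


section KeyLemma

/-- `ℓ^∞` -/
noncomputable abbrev Linf := lp (fun _ : ℕ => ℂ) ⊤

/-- indicator function of a set as an element of `ℓ^∞`. -/
noncomputable def ind (N : Set ℕ) : Linf :=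
  ⟨fun j => N.indicator (fun _ => (1 : ℂ)) j, by
    apply memℓp_infty
    refine ⟨1, ?_⟩
    rintro _ ⟨j, rfl⟩
    by_cases h : j ∈ N <;> simp [h]⟩

lemma ind_apply (N : Set ℕ) (j : ℕ) : (ind N) j = N.indicator (fun _ => (1 : ℂ)) j := rfl

lemma ind_apply_mem {N : Set ℕ} {j : ℕ} (h : j ∈ N) : (ind N) j = 1 := by
  rw [ind_apply, Set.indicator_of_mem h]

lemma ind_apply_notMem {N : Set ℕ} {j : ℕ} (h : j ∉ N) : (ind N) j = 0 := by
  rw [ind_apply, Set.indicator_of_notMem h]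

lemma exists_coord (z : Linf) : ∃ j, ‖z‖ ≤ 2 * ‖z j‖ := by
  by_contra hcon
  push Not at hcon
  have h1 : ‖z‖ ≤ ‖z‖ / 2 := lp.norm_le_of_forall_le' _ (fun j => by linarith [hcon j])
  have h2 := norm_nonneg (z 0)
  have h3 := hcon 0
  linarith

/-- The inequality defining absolutely summing maps on `ℓ^∞`, tested on finite families. -/
def OneSumming (R : Linf →ₗ[ℂ] Linf) (C : ℝ) : Prop :=
  ∀ (F : Finset ℕ) (y : ℕ → Linf) (j : ℕ → ℕ) (M : ℝ),
    (∀ i, ∑ k ∈ F, ‖y k i‖ ≤ M) → ∑ k ∈ F, ‖R (y k) (j k)‖ ≤ C * M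

lemma OneSumming.norm_le {R : Linf →ₗ[ℂ] Linf} {C : ℝ} (hR : OneSumming R C)
    (F : Finset ℕ) (y : ℕ → Linf) (M : ℝ) (h : ∀ i, ∑ k ∈ F, ‖y k i‖ ≤ M) :
    ∑ k ∈ F, ‖R (y k)‖ ≤ 2 * (C * M) := by
  choose j hj using fun k => exists_coord (R (y k))
  calc ∑ k ∈ F, ‖R (y k)‖ ≤ ∑ k ∈ F, 2 * ‖R (y k) (j k)‖ := Finset.sum_le_sum fun k _ => hj k
    _ = 2 * ∑ k ∈ F, ‖R (y k) (j k)‖ := by rw [Finset.mul_sum]
    _ ≤ 2 * (C * M) := by linarith [hR F y j M h]

lemma sum_ind_le {ι : Type*} (F : Finset ι) (D : ι → Set ℕ)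
    (hD : ∀ k ∈ F, ∀ l ∈ F, k ≠ l → Disjoint (D k) (D l)) (i : ℕ) :
    ∑ k ∈ F, ‖ind (D k) i‖ ≤ 1 := by
  classical
  by_cases h : ∃ k ∈ F, i ∈ D k
  · obtain ⟨k, hk, hik⟩ := h
    rw [Finset.sum_eq_single k]
    · rw [ind_apply_mem hik]; simp
    · intro l hl hlk
      rw [ind_apply_notMem, norm_zero]
      intro hil
      exact (Set.disjoint_left.mp (hD l hl k hk hlk)) hil hik
    · intro hk'; exact absurd hk hk'
  · push Not at h
    rw [Finset.sum_eq_zero]
    · exact zero_le_one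
    · intro k hk
      rw [ind_apply_notMem (h k hk), norm_zero]

lemma ind_finset (F : Finset ℕ) : ind (F : Set ℕ) = ∑ u ∈ F, ind {u} := by
  classical
  apply lp.ext
  funext i
  rw [lp.coeFn_sum, Finset.sum_apply]
  by_cases h : i ∈ F
  · rw [ind_apply_mem (by simpa using h), Finset.sum_eq_single i]
    · rw [ind_apply_mem (by simp)]
    · intro l _ hl
      exact ind_apply_notMem (by simpa using hl.symm)
    · intro h'; exact absurd h h'
  · rw [ind_apply_notMem (by simpa using h)]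
    symm
    apply Finset.sum_eq_zero
    intro k hk
    apply ind_apply_notMem
    simp only [Set.mem_singleton_iff]
    rintro rfl
    exact h hk

lemma ind_union {S T : Set ℕ} (h : Disjoint S T) : ind (S ∪ T) = ind S + ind T := by
  apply lp.ext
  funext i
  rw [lp.coeFn_add, Pi.add_apply]
  by_cases h1 : i ∈ S
  · have h2 : i ∉ T := Set.disjoint_left.mp h h1
    rw [ind_apply_mem (Or.inl h1), ind_apply_mem h1, ind_apply_notMem h2, add_zero]
  · by_cases h2 : i ∈ T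
    · rw [ind_apply_mem (Or.inr h2), ind_apply_mem h2, ind_apply_notMem h1, zero_add]
    · rw [ind_apply_notMem (by simp [h1, h2]), ind_apply_notMem h1, ind_apply_notMem h2, add_zero]

lemma one_le_norm_sub {S T : Set ℕ} (h : S ≠ T) : 1 ≤ ‖ind S - ind T‖ := by
  have : ∃ i, (i ∈ S ∧ i ∉ T) ∨ (i ∉ S ∧ i ∈ T) := by
    by_contra hcon
    push Not at hcon
    apply h
    ext i
    constructor
    · intro hi; exact (hcon i).1 hi
    · intro hi
      by_contra hi'
      exact (hcon i).2 hi' hi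
  obtain ⟨i, hi⟩ := this
  have h1 : ‖(ind S - ind T) i‖ ≤ ‖ind S - ind T‖ := lp.norm_apply_le_norm (by simp) _ i
  have h2 : ‖(ind S - ind T) i‖ = 1 := by
    rw [lp.coeFn_sub, Pi.sub_apply]
    rcases hi with ⟨a, b⟩ | ⟨a, b⟩
    · rw [ind_apply_mem a, ind_apply_notMem b]; simp
    · rw [ind_apply_mem b, ind_apply_notMem a]; simp
  linarith

theorem key {R : Linf →ₗ[ℂ] Linf} {C : ℝ} (hR : OneSumming R C) (N : ℕ → Set ℕ)
    (hfin : ∀ i j, i ≠ j → (N i ∩ N j).Finite) (hne : ∀ i j, i ≠ j → N i ≠ N j)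
    (happ : ∀ i, ‖R (ind (N i)) - ind (N i)‖ < 1 / 4) : False := by
  classical
  -- summability of the images of the unit vectors
  have hsum : ∀ F : Finset ℕ, ∑ u ∈ F, ‖R (ind {u})‖ ≤ 2 * (C * 1) := by
    intro F
    apply hR.norm_le F (fun u => ind {u}) 1
    intro i
    apply sum_ind_le F (fun u => ({u} : Set ℕ))
    intro k _ l _ hkl
    simpa using hkl
  have hS : Summable fun u : ℕ => ‖R (ind {u})‖ :=
    summable_of_sum_le (fun _ => norm_nonneg _) hsum
  obtain ⟨B0, hB0⟩ := (summable_iff_vanishing_norm.mp hS) (1 / 10) (by norm_num)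
  have hB0' : ∀ F : Finset ℕ, Disjoint F B0 → ‖R (ind (F : Set ℕ))‖ < 1 / 10 := by
    intro F hF
    rw [ind_finset, map_sum]
    refine (norm_sum_le _ _).trans_lt ?_
    have := hB0 F hF
    rwa [Real.norm_of_nonneg (Finset.sum_nonneg fun _ _ => norm_nonneg _)] at this
  -- pigeonhole
  obtain ⟨T, hT⟩ := Finite.exists_infinite_fiber
    (fun i : ℕ => (⟨B0.filter (· ∈ N i), Finset.mem_powerset.mpr (Finset.filter_subset _ _)⟩ :
      {S : Finset ℕ // S ∈ B0.powerset}))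
  have g := Infinite.natEmbedding
    ((fun i : ℕ => (⟨B0.filter (· ∈ N i), Finset.mem_powerset.mpr (Finset.filter_subset _ _)⟩ :
      {S : Finset ℕ // S ∈ B0.powerset})) ⁻¹' {T})
  set n : ℕ → ℕ := fun k => (g k : ℕ) with hn
  have hninj : ∀ k l, k ≠ l → n k ≠ n l := by
    intro k l hkl h
    exact hkl (g.injective (Subtype.ext h))
  have hnT : ∀ k, B0.filter (· ∈ N (n k)) = (T : Finset ℕ) := by
    intro k
    have := (g k).2
    simp only [Set.mem_preimage, Set.mem_singleton_iff] at this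
    exact congrArg Subtype.val this
  -- choose the number of sets
  obtain ⟨m, hm⟩ := exists_nat_gt (40 * C)
  have hm0 : 0 < m := by
    by_contra h0
    have h0' : m = 0 := by omega
    have hC : 0 ≤ C := by
      have := hsum ∅
      simp at this
      exact this
    rw [h0'] at hm
    push_cast at hm
    linarith
  -- a finite set outside of which the sets are pairwise disjoint
  have hBfin : (⋃ k ∈ Finset.range (2 * m), ⋃ l ∈ Finset.range (2 * m),
      (if k = l then (∅ : Set ℕ) else N (n k) ∩ N (n l))).Finite := by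
    refine Set.Finite.biUnion (Finset.finite_toSet _) fun k _ => ?_
    refine Set.Finite.biUnion (Finset.finite_toSet _) fun l _ => ?_
    split_ifs with h
    · exact Set.finite_empty
    · exact hfin _ _ (hninj k l h)
  obtain ⟨B1, hB1⟩ := hBfin.exists_finset_coe
  set B : Finset ℕ := B0 ∪ B1 with hB
  have hdisj : ∀ k ∈ Finset.range (2 * m), ∀ l ∈ Finset.range (2 * m), k ≠ l →
      Disjoint (N (n k) \ (B : Set ℕ)) (N (n l) \ (B : Set ℕ)) := by
    intro k hk l hl hkl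
    rw [Set.disjoint_left]
    rintro i ⟨h1, h2⟩ ⟨h3, _⟩
    apply h2
    have : i ∈ (B1 : Set ℕ) := by
      rw [hB1]
      simp only [Set.mem_iUnion]
      refine ⟨k, hk, l, hl, ?_⟩
      rw [if_neg hkl]
      exact ⟨h1, h3⟩
    rw [hB]
    simp only [Finset.coe_union, Set.mem_union]
    exact Or.inr this
  have hsumA : ∑ l ∈ Finset.range m, ‖R (ind (N (n (2 * l)) \ (B : Set ℕ)))‖ ≤ 2 * (C * 1) := by
    apply hR.norm_le _ (fun l => ind (N (n (2 * l)) \ (B : Set ℕ))) 1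
    intro i
    apply sum_ind_le _ (fun l => N (n (2 * l)) \ (B : Set ℕ))
    intro k hk l hl hkl
    simp only [Finset.mem_range] at hk hl
    exact hdisj _ (by simp; omega) _ (by simp; omega) (by omega)
  have hsumB : ∑ l ∈ Finset.range m, ‖R (ind (N (n (2 * l + 1)) \ (B : Set ℕ)))‖ ≤ 2 * (C * 1) := by
    apply hR.norm_le _ (fun l => ind (N (n (2 * l + 1)) \ (B : Set ℕ))) 1
    intro i
    apply sum_ind_le _ (fun l => N (n (2 * l + 1)) \ (B : Set ℕ))
    intro k hk l hl hkl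
    simp only [Finset.mem_range] at hk hl
    exact hdisj _ (by simp; omega) _ (by simp; omega) (by omega)
  obtain ⟨l, hl, hlle⟩ : ∃ l ∈ Finset.range m,
      ‖R (ind (N (n (2 * l)) \ (B : Set ℕ)))‖ + ‖R (ind (N (n (2 * l + 1)) \ (B : Set ℕ)))‖
        ≤ 4 * C / m := by
    apply Finset.exists_le_of_sum_le (by simp; omega)
    rw [Finset.sum_add_distrib, Finset.sum_const, Finset.card_range, nsmul_eq_mul]
    have : (m : ℝ) * (4 * C / m) = 4 * C := by
      field_simp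
    rw [this]
    linarith
  have hlt : 4 * C / m < 1 / 10 := by
    rw [div_lt_iff₀ (by exact_mod_cast hm0)]
    linarith
  -- decomposition of the indicator
  have hdec : ∀ k, ind (N (n k)) = ind (N (n k) \ (B : Set ℕ)) +
      (ind ((T : Finset ℕ) : Set ℕ) + ind (((B \ B0).filter (· ∈ N (n k)) : Finset ℕ) : Set ℕ)) := by
    intro k
    rw [← ind_union, ← ind_union]
    · congr 1
      ext i
      simp only [Set.mem_union, Set.mem_sdiff, Finset.mem_coe]
      rw [← hnT k]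
      simp only [Finset.mem_filter, Finset.mem_sdiff, hB, Finset.mem_union]
      tauto
    · rw [Set.disjoint_left]
      rintro i ⟨_, h2⟩ h3
      apply h2
      simp only [Set.mem_union, Finset.mem_coe] at h3
      rw [← hnT k] at h3
      simp only [Finset.mem_filter, Finset.mem_sdiff, hB, Finset.mem_union] at h3
      simp only [hB, Finset.mem_coe, Finset.mem_union]
      tauto
    · rw [Set.disjoint_left]
      intro i h1 h2
      rw [← hnT k] at h1
      simp only [Finset.mem_coe, Finset.mem_filter, Finset.mem_sdiff] at h1 h2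
      exact h2.1.2 h1.1
  have hsmall : ∀ k, ‖R (ind (((B \ B0).filter (· ∈ N (n k)) : Finset ℕ) : Set ℕ))‖ < 1 / 10 := by
    intro k
    apply hB0'
    rw [Finset.disjoint_left]
    intro i hi
    simp only [Finset.mem_filter, Finset.mem_sdiff] at hi
    exact hi.1.2
  -- final estimate
  have h1 := one_le_norm_sub (hne _ _ (hninj (2 * l) (2 * l + 1) (by omega)))
  have h2 := happ (n (2 * l))
  have h3 := happ (n (2 * l + 1))
  have h4 : ‖R (ind (N (n (2 * l)))) - R (ind (N (n (2 * l + 1))))‖ < 3 / 10 := by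
    rw [hdec (2 * l), hdec (2 * l + 1), map_add, map_add, map_add, map_add]
    set a := R (ind (N (n (2 * l)) \ (B : Set ℕ)))
    set a' := R (ind (N (n (2 * l + 1)) \ (B : Set ℕ)))
    set t := R (ind ((T : Finset ℕ) : Set ℕ))
    set b := R (ind (((B \ B0).filter (· ∈ N (n (2 * l))) : Finset ℕ) : Set ℕ)) with hb
    set b' := R (ind (((B \ B0).filter (· ∈ N (n (2 * l + 1))) : Finset ℕ) : Set ℕ)) with hb'
    have e : a + (t + b) - (a' + (t + b')) = (a - a') + (b - b') := by abel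
    rw [e]
    have hbs := hsmall (2 * l)
    have hbs' := hsmall (2 * l + 1)
    rw [← hb] at hbs
    rw [← hb'] at hbs'
    calc ‖(a - a') + (b - b')‖ ≤ ‖a - a'‖ + ‖b - b'‖ := norm_add_le _ _
      _ ≤ (‖a‖ + ‖a'‖) + (‖b‖ + ‖b'‖) := add_le_add (norm_sub_le _ _) (norm_sub_le _ _)
      _ < 3 / 10 := by linarith
  have h5 : ind (N (n (2 * l))) - ind (N (n (2 * l + 1))) =
      -(R (ind (N (n (2 * l)))) - ind (N (n (2 * l)))) +
      (R (ind (N (n (2 * l)))) - R (ind (N (n (2 * l + 1))))) +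
      (R (ind (N (n (2 * l + 1)))) - ind (N (n (2 * l + 1)))) := by abel
  have h6 := norm_add₃_le (a := -(R (ind (N (n (2 * l)))) - ind (N (n (2 * l)))))
      (b := (R (ind (N (n (2 * l)))) - R (ind (N (n (2 * l + 1))))))
      (c := (R (ind (N (n (2 * l + 1)))) - ind (N (n (2 * l + 1)))))
  rw [← h5, norm_neg] at h6
  linarith


/-! ### An uncountable almost disjoint family -/

open Classical in
/-- almost disjoint family indexed by the subsets of `ℕ` -/
def adSet (x : Set ℕ) : Set ℕ :=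
  Set.range fun n : ℕ => Encodable.encode (n, (Finset.range n).filter (· ∈ x))

open Classical in
lemma adSet_inter_finite {x y : Set ℕ} (h : x ≠ y) : (adSet x ∩ adSet y).Finite := by
  have : ∃ i, ¬ (i ∈ x ↔ i ∈ y) := by
    by_contra hcon
    push Not at hcon
    exact h (Set.ext hcon)
  obtain ⟨i, hi⟩ := this
  apply ((Finset.range (i + 1)).finite_toSet.image
    (fun n : ℕ => Encodable.encode (n, (Finset.range n).filter (· ∈ x)))).subset
  rintro c ⟨⟨n, hn⟩, ⟨m, hm⟩⟩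
  refine ⟨n, ?_, hn⟩
  simp only at hn hm
  have h1 := Encodable.encode_injective (hn.trans hm.symm)
  rw [Prod.mk.injEq] at h1
  obtain ⟨h2, h3⟩ := h1
  subst h2
  by_contra hni
  simp only [Finset.coe_range, Set.mem_Iio, not_lt] at hni
  apply hi
  have h4 := congrArg (fun S : Finset ℕ => i ∈ S) h3
  simp only [Finset.mem_filter, Finset.mem_range, eq_iff_iff] at h4
  have h5 : i < n := by omega
  simpa [h5] using h4

open Classical in
lemma adSet_infinite (x : Set ℕ) : (adSet x).Infinite := by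
  apply Set.infinite_range_of_injective
  intro n m h
  simp only at h
  have h1 := Encodable.encode_injective h
  rw [Prod.mk.injEq] at h1
  exact h1.1

lemma adSet_ne {x y : Set ℕ} (h : x ≠ y) : adSet x ≠ adSet y := by
  intro h'
  have h1 := adSet_inter_finite h
  rw [h', Set.inter_self] at h1
  exact adSet_infinite y h1

/-- Pigeonhole over an uncountable almost disjoint family. -/
theorem finale (l : Filter ℕ) [l.NeBot] (R : ℕ → Linf →ₗ[ℂ] Linf) (C : ℕ → ℝ)
    (hR : ∀ n, OneSumming (R n) (C n)) (D : Set (Set ℕ)) (hD : D.Countable)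
    (hlim : ∀ x, x ∉ D → Tendsto (fun n => R n (ind (adSet x))) l (𝓝 (ind (adSet x)))) :
    False := by
  have hG : ∀ n, {x : Set ℕ | ‖R n (ind (adSet x)) - ind (adSet x)‖ < 1 / 4}.Finite := by
    intro n
    by_contra hinf
    have hinf' : {x : Set ℕ | ‖R n (ind (adSet x)) - ind (adSet x)‖ < 1 / 4}.Infinite := hinf
    have g := hinf'.natEmbedding
    apply key (hR n) (fun i => adSet (g i))
    · intro i j hij
      apply adSet_inter_finite
      intro h
      exact hij (g.injective (Subtype.ext h))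
    · intro i j hij
      apply adSet_ne
      intro h
      exact hij (g.injective (Subtype.ext h))
    · intro i
      exact (g i).2
  have hcov : (Set.univ : Set (Set ℕ)) ⊆
      D ∪ ⋃ n, {x : Set ℕ | ‖R n (ind (adSet x)) - ind (adSet x)‖ < 1 / 4} := by
    intro x _
    by_cases hx : x ∈ D
    · exact Or.inl hx
    · right
      have h1 := (tendsto_iff_norm_sub_tendsto_zero.mp (hlim x hx)).eventually
        (gt_mem_nhds (show (0 : ℝ) < 1 / 4 by norm_num))
      obtain ⟨n, hn⟩ := h1.exists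
      exact Set.mem_iUnion.mpr ⟨n, hn⟩
  have hcount : (Set.univ : Set (Set ℕ)).Countable :=
    (hD.union (Set.countable_iUnion fun n => (hG n).countable)).mono hcov
  have : Countable (Set ℕ) := Set.countable_univ_iff.mp hcount
  obtain ⟨f, hf⟩ := exists_surjective_nat (Set ℕ)
  exact Function.cantor_surjective f hf

/-- A bounded functional which vanishes on all finitely supported sequences vanishes at all but
countably many members of the almost disjoint family. -/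
lemma countable_support_functional (ξ : Linf →L[ℂ] ℂ)
    (hξ : ∀ S : Set ℕ, S.Finite → ξ (ind S) = 0) :
    {x : Set ℕ | ξ (ind (adSet x)) ≠ 0}.Countable := by
  classical
  have hbound : ∀ s : Finset (Set ℕ), ∑ x ∈ s, ‖ξ (ind (adSet x))‖ ≤ ‖ξ‖ := by
    intro s
    have hBfin : (⋃ x ∈ s, ⋃ y ∈ s,
        (if x = y then (∅ : Set ℕ) else adSet x ∩ adSet y)).Finite := by
      refine Set.Finite.biUnion (Finset.finite_toSet _) fun k _ => ?_
      refine Set.Finite.biUnion (Finset.finite_toSet _) fun l _ => ?_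
      split_ifs with h
      · exact Set.finite_empty
      · exact adSet_inter_finite h
    set B := (⋃ x ∈ s, ⋃ y ∈ s,
        (if x = y then (∅ : Set ℕ) else adSet x ∩ adSet y)) with hB
    have hdisj : ∀ x ∈ s, ∀ y ∈ s, x ≠ y → Disjoint (adSet x \ B) (adSet y \ B) := by
      intro x hx y hy hxy
      rw [Set.disjoint_left]
      rintro i ⟨h1, h2⟩ ⟨h3, _⟩
      apply h2
      rw [hB]
      simp only [Set.mem_iUnion]
      refine ⟨x, hx, y, hy, ?_⟩
      rw [if_neg hxy]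
      exact ⟨h1, h3⟩
    have hval : ∀ x, ξ (ind (adSet x)) = ξ (ind (adSet x \ B)) := by
      intro x
      have h1 : adSet x = (adSet x \ B) ∪ (adSet x ∩ B) := (Set.sdiff_union_inter _ _).symm
      have h2 : ind (adSet x) = ind (adSet x \ B) + ind (adSet x ∩ B) := by
        rw [← ind_union]
        · rw [Set.sdiff_union_inter]
        · rw [Set.disjoint_left]
          rintro i ⟨_, h3⟩ ⟨_, h4⟩
          exact h3 h4
      rw [h2, map_add, hξ _ (hBfin.subset Set.inter_subset_right), add_zero]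
    choose ω hω1 hω2 using fun x : Set ℕ => RCLike.exists_norm_eq_mul_self (ξ (ind (adSet x)))
    have hz : ‖∑ x ∈ s, ω x • ind (adSet x \ B)‖ ≤ 1 := by
      apply lp.norm_le_of_forall_le zero_le_one
      intro i
      rw [lp.coeFn_sum, Finset.sum_apply]
      refine (norm_sum_le _ _).trans ?_
      refine le_trans (Finset.sum_le_sum fun x _ => ?_) (sum_ind_le s (fun x => adSet x \ B) hdisj i)
      rw [lp.coeFn_smul, Pi.smul_apply, norm_smul, hω1, one_mul]
    have h1 : ((∑ x ∈ s, ‖ξ (ind (adSet x))‖ : ℝ) : ℂ) = ξ (∑ x ∈ s, ω x • ind (adSet x \ B)) := by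
      rw [map_sum]
      push_cast
      apply Finset.sum_congr rfl
      intro x _
      rw [map_smul, ← hval x, smul_eq_mul]
      exact hω2 x
    have h2 : ‖((∑ x ∈ s, ‖ξ (ind (adSet x))‖ : ℝ) : ℂ)‖ ≤ ‖ξ‖ := by
      rw [h1]
      calc ‖ξ (∑ x ∈ s, ω x • ind (adSet x \ B))‖ ≤ ‖ξ‖ * ‖∑ x ∈ s, ω x • ind (adSet x \ B)‖ :=
            ξ.le_opNorm _
        _ ≤ ‖ξ‖ * 1 := mul_le_mul_of_nonneg_left hz (norm_nonneg _)
        _ = ‖ξ‖ := mul_one _
    rw [Complex.norm_real, Real.norm_of_nonneg (Finset.sum_nonneg fun _ _ => norm_nonneg _)] at h2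
    exact h2
  have hS : Summable fun x : Set ℕ => ‖ξ (ind (adSet x))‖ :=
    summable_of_sum_le (fun _ => norm_nonneg _) hbound
  refine hS.countable_support.mono ?_
  intro x hx
  simpa [Function.mem_support] using hx

/-! ### Composition operators with finite range -/

/-- `f ↦ f ∘ h` on `ℓ^∞`. -/
noncomputable def compOp (h : ℕ → ℕ) : Linf →L[ℂ] Linf :=
  LinearMap.mkContinuous
    { toFun := fun f => (⟨fun j => f (h j), by
        apply memℓp_infty
        refine ⟨‖f‖, ?_⟩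
        rintro _ ⟨j, rfl⟩
        exact lp.norm_apply_le_norm (by simp) f (h j)⟩ : Linf)
      map_add' := fun f g => lp.ext rfl
      map_smul' := fun c f => lp.ext rfl } 1 (by
        intro f
        rw [one_mul]
        apply lp.norm_le_of_forall_le (norm_nonneg _)
        intro j
        exact lp.norm_apply_le_norm (by simp) f (h j))

lemma compOp_apply (h : ℕ → ℕ) (f : Linf) (j : ℕ) : (compOp h f) j = f (h j) := rfl

lemma norm_compOp_le (h : ℕ → ℕ) : ‖compOp h‖ ≤ 1 :=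
  LinearMap.mkContinuous_norm_le _ zero_le_one _

lemma exists_finite_range (V : Finset Linf) {ε : ℝ} (hε : 0 < ε) :
    ∃ h : ℕ → ℕ, (Set.range h).Finite ∧ ∀ v ∈ V, ‖compOp h v - v‖ ≤ ε := by
  classical
  let Φ : ℕ → (V → ℂ) := fun j v => (v : Linf) j
  have hb : Bornology.IsBounded (Set.range Φ) := by
    rw [isBounded_iff_forall_norm_le]
    refine ⟨∑ v ∈ V, ‖v‖, ?_⟩
    rintro _ ⟨j, rfl⟩
    rw [pi_norm_le_iff_of_nonneg (Finset.sum_nonneg fun _ _ => norm_nonneg _)]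
    intro v
    refine (lp.norm_apply_le_norm (by simp) (v : Linf) j).trans ?_
    exact Finset.single_le_sum (f := fun v : Linf => ‖v‖) (fun _ _ => norm_nonneg _) v.2
  have htb : TotallyBounded (Set.range Φ) := hb.isCompact_closure.totallyBounded.subset subset_closure
  obtain ⟨t, htsub, htfin, htcov⟩ := htb.exists_subset (Metric.dist_mem_uniformity hε)
  have h1 : ∀ j, ∃ y ∈ t, dist (Φ j) y < ε := by
    intro j
    have := htcov ⟨j, rfl⟩
    simp only [Set.mem_iUnion] at this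
    obtain ⟨y, hy, hy'⟩ := this
    exact ⟨y, hy, hy'⟩
  choose y hyt hyd using h1
  have h2 : ∀ z : V → ℂ, ∃ m : ℕ, z ∈ t → Φ m = z := by
    intro z
    by_cases hz : z ∈ t
    · obtain ⟨m, hm⟩ := htsub hz
      exact ⟨m, fun _ => hm⟩
    · exact ⟨0, fun h => absurd h hz⟩
  choose g hg using h2
  refine ⟨fun j => g (y j), ?_, ?_⟩
  · apply (htfin.image g).subset
    rintro _ ⟨j, rfl⟩
    exact ⟨y j, hyt j, rfl⟩
  · intro v hv
    apply lp.norm_le_of_forall_le hε.le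
    intro j
    rw [lp.coeFn_sub, Pi.sub_apply, compOp_apply]
    have h3 : Φ (g (y j)) = y j := hg _ (hyt j)
    have h4 : dist (Φ j ⟨v, hv⟩) (y j ⟨v, hv⟩) < ε := lt_of_le_of_lt (dist_le_pi_dist _ _ _) (hyd j)
    rw [← h3] at h4
    rw [dist_comm, dist_eq_norm] at h4
    exact h4.le


end KeyLemma


/-- `ℓ¹` -/
noncomputable abbrev L1 := lp (fun _ : ℕ => ℂ) 1

/-! ### Limits on closed spans -/

lemma tendsto_of_mem_closure {V W ι : Type*} [NormedAddCommGroup V] [NormedSpace ℂ V]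
    [NormedAddCommGroup W] [NormedSpace ℂ W] (l : Filter ι) (Tn : ι → V →L[ℂ] W) (T : V →L[ℂ] W)
    (C : ℝ) (hC0 : 0 ≤ C) (hC : ∀ i ξ, ‖Tn i ξ‖ ≤ C * ‖ξ‖) (hCT : ∀ ξ, ‖T ξ‖ ≤ C * ‖ξ‖)
    (G : Set V)
    (hG : ∀ g ∈ G, Tendsto (fun i => Tn i g) l (𝓝 (T g))) :
    ∀ ξ ∈ (Submodule.span ℂ G).topologicalClosure, Tendsto (fun i => Tn i ξ) l (𝓝 (T ξ)) := by
  have hspan : ∀ ξ ∈ Submodule.span ℂ G, Tendsto (fun i => Tn i ξ) l (𝓝 (T ξ)) := by
    intro ξ hξ
    induction hξ using Submodule.span_induction with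
    | mem x hx => exact hG x hx
    | zero => simpa using tendsto_const_nhds
    | add x y _ _ hx hy => simpa using hx.add hy
    | smul c x _ hx => simpa using hx.const_smul c
  intro ξ hξ
  have hξ' : ξ ∈ closure ((Submodule.span ℂ G : Submodule ℂ V) : Set V) := hξ
  rw [Metric.mem_closure_iff] at hξ'
  rw [Metric.tendsto_nhds]
  intro ε hε
  obtain ⟨η, hη, hd⟩ := hξ' (ε / (4 * (C + 1))) (by positivity)
  have h1 := (Metric.tendsto_nhds.mp (hspan η hη)) (ε / 4) (by positivity)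
  filter_upwards [h1] with i hi
  rw [dist_eq_norm] at hd hi ⊢
  have e : Tn i ξ - T ξ = Tn i (ξ - η) + (Tn i η - T η) - T (ξ - η) := by
    rw [map_sub, map_sub]; abel
  have hb : C * ‖ξ - η‖ ≤ ε / 4 := by
    have : (C + 1) * ‖ξ - η‖ ≤ (C + 1) * (ε / (4 * (C + 1))) :=
      mul_le_mul_of_nonneg_left hd.le (by positivity)
    have h4 : (C + 1) * (ε / (4 * (C + 1))) = ε / 4 := by field_simp
    have h5 : C * ‖ξ - η‖ ≤ (C + 1) * ‖ξ - η‖ :=
      mul_le_mul_of_nonneg_right (by linarith) (norm_nonneg _)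
    linarith
  calc ‖Tn i ξ - T ξ‖ = ‖Tn i (ξ - η) + (Tn i η - T η) - T (ξ - η)‖ := by rw [e]
    _ ≤ ‖Tn i (ξ - η) + (Tn i η - T η)‖ + ‖T (ξ - η)‖ := norm_sub_le _ _
    _ ≤ ‖Tn i (ξ - η)‖ + ‖Tn i η - T η‖ + ‖T (ξ - η)‖ := by
        gcongr; exact norm_add_le _ _
    _ ≤ C * ‖ξ - η‖ + ‖Tn i η - T η‖ + C * ‖ξ - η‖ := by
        gcongr
        · exact hC i _
        · exact hCT _
    _ < ε := by linarith

lemma exists_limit_of_mem_closure {V W ι : Type*} [NormedAddCommGroup V] [NormedSpace ℂ V]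
    [NormedAddCommGroup W] [NormedSpace ℂ W] [CompleteSpace W] (l : Filter ι) [l.NeBot]
    (Tn : ι → V →L[ℂ] W)
    (C : ℝ) (hC0 : 0 ≤ C) (hC : ∀ i ξ, ‖Tn i ξ‖ ≤ C * ‖ξ‖) (G : Set V)
    (hG : ∀ g ∈ G, ∃ z, Tendsto (fun i => Tn i g) l (𝓝 z)) :
    ∀ ξ ∈ (Submodule.span ℂ G).topologicalClosure, ∃ z, Tendsto (fun i => Tn i ξ) l (𝓝 z) := by
  have hspan : ∀ ξ ∈ Submodule.span ℂ G, ∃ z, Tendsto (fun i => Tn i ξ) l (𝓝 z) := by
    intro ξ hξ
    induction hξ using Submodule.span_induction with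
    | mem x hx => exact hG x hx
    | zero => exact ⟨0, by simp⟩
    | add x y _ _ hx hy =>
      obtain ⟨z, hz⟩ := hx
      obtain ⟨z', hz'⟩ := hy
      exact ⟨z + z', by simpa using hz.add hz'⟩
    | smul c x _ hx =>
      obtain ⟨z, hz⟩ := hx
      exact ⟨c • z, by simpa using hz.const_smul c⟩
  intro ξ hξ
  have hξ' : ξ ∈ closure ((Submodule.span ℂ G : Submodule ℂ V) : Set V) := hξ
  rw [Metric.mem_closure_iff] at hξ'
  rw [← cauchy_map_iff_exists_tendsto]
  rw [Metric.cauchy_iff]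
  refine ⟨inferInstance, ?_⟩
  intro ε hε
  obtain ⟨η, hη, hd⟩ := hξ' (ε / (8 * (C + 1))) (by positivity)
  obtain ⟨z, hz⟩ := hspan η hη
  have h1 := (Metric.tendsto_nhds.mp hz) (ε / 4) (by positivity)
  have hb : C * ‖ξ - η‖ ≤ ε / 8 := by
    rw [dist_eq_norm] at hd
    have : (C + 1) * ‖ξ - η‖ ≤ (C + 1) * (ε / (8 * (C + 1))) :=
      mul_le_mul_of_nonneg_left hd.le (by positivity)
    have h4 : (C + 1) * (ε / (8 * (C + 1))) = ε / 8 := by field_simp
    have h5 : C * ‖ξ - η‖ ≤ (C + 1) * ‖ξ - η‖ :=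
      mul_le_mul_of_nonneg_right (by linarith) (norm_nonneg _)
    linarith
  have hkey : ∀ i, dist (Tn i η) z < ε / 4 → dist (Tn i ξ) z < ε / 2 := by
    intro i hi
    rw [dist_eq_norm] at hi ⊢
    have e : Tn i ξ - z = Tn i (ξ - η) + (Tn i η - z) := by
      rw [map_sub]; abel
    calc ‖Tn i ξ - z‖ = ‖Tn i (ξ - η) + (Tn i η - z)‖ := by rw [e]
      _ ≤ ‖Tn i (ξ - η)‖ + ‖Tn i η - z‖ := norm_add_le _ _
      _ ≤ C * ‖ξ - η‖ + ‖Tn i η - z‖ := by
          gcongr; exact hC i _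
      _ < ε / 2 := by linarith
  refine ⟨Metric.ball z (ε / 2), ?_, ?_⟩
  · rw [Filter.mem_map]
    filter_upwards [h1] with i hi
    exact hkey i hi
  · intro x hx y hy
    rw [Metric.mem_ball] at hx hy
    calc dist x y ≤ dist x z + dist y z := dist_triangle_right _ _ _
      _ < ε := by linarith

/-! ### Bilinear forms -/

section Forms

variable {E : Type u} [NormedAddCommGroup E] [NormedSpace ℂ E]
  {A₁ : Type v} [NormedAddCommGroup A₁] [NormedSpace ℂ A₁]
  {A₂ : Type w} [NormedAddCommGroup A₂] [NormedSpace ℂ A₂]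

/-- `(a, b) ↦ φ (a (Q (b z)))`. -/
noncomputable def formT (i₁ : A₁ →L[ℂ] (E →L[ℂ] E)) (i₂ : A₂ →L[ℂ] (E →L[ℂ] E))
    (φ : E →L[ℂ] ℂ) (Q : E →L[ℂ] E) (z : E) : A₁ →L[ℂ] A₂ →L[ℂ] ℂ :=
  LinearMap.mkContinuous₂
    (LinearMap.mk₂ ℂ (fun (a : A₁) (b : A₂) => φ (i₁ a (Q (i₂ b z))))
      (fun a b x => by simp)
      (fun c a x => by simp)
      (fun a x y => by simp)
      (fun c a x => by simp)) (‖φ‖ * ‖i₁‖ * ‖Q‖ * ‖i₂‖ * ‖z‖) (by
        intro a b
        simp only [LinearMap.mk₂_apply]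
        calc ‖φ (i₁ a (Q (i₂ b z)))‖ ≤ ‖φ‖ * ‖i₁ a (Q (i₂ b z))‖ := φ.le_opNorm _
          _ ≤ ‖φ‖ * (‖i₁‖ * ‖a‖ * (‖Q‖ * (‖i₂‖ * ‖b‖ * ‖z‖))) := by
              gcongr
              refine (ContinuousLinearMap.le_opNorm _ _).trans ?_
              gcongr
              · exact i₁.le_opNorm a
              · refine (ContinuousLinearMap.le_opNorm _ _).trans ?_
                gcongr
                refine (ContinuousLinearMap.le_opNorm _ _).trans ?_
                gcongr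
                exact i₂.le_opNorm b
          _ = ‖φ‖ * ‖i₁‖ * ‖Q‖ * ‖i₂‖ * ‖z‖ * ‖a‖ * ‖b‖ := by ring)

lemma formT_apply (i₁ : A₁ →L[ℂ] (E →L[ℂ] E)) (i₂ : A₂ →L[ℂ] (E →L[ℂ] E))
    (φ : E →L[ℂ] ℂ) (Q : E →L[ℂ] E) (z : E) (a : A₁) (b : A₂) :
    formT i₁ i₂ φ Q z a b = φ (i₁ a (Q (i₂ b z))) := rfl

lemma norm_formT_le (i₁ : A₁ →L[ℂ] (E →L[ℂ] E)) (i₂ : A₂ →L[ℂ] (E →L[ℂ] E))
    (φ : E →L[ℂ] ℂ) (Q : E →L[ℂ] E) (z : E) (h₁ : ‖i₁‖ ≤ 1) (h₂ : ‖i₂‖ ≤ 1) (hφ : ‖φ‖ ≤ 1)
    (hQ : ‖Q‖ ≤ 1) (hz : ‖z‖ ≤ 1) : ‖formT i₁ i₂ φ Q z‖ ≤ 1 := by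
  refine (LinearMap.mkContinuous₂_norm_le _ (by positivity) _).trans ?_
  calc ‖φ‖ * ‖i₁‖ * ‖Q‖ * ‖i₂‖ * ‖z‖ ≤ 1 * 1 * 1 * 1 * 1 := by gcongr
    _ = 1 := by norm_num

/-- `(a, b) ↦ φ (b (c (a x)))`. -/
noncomputable def formS (i₁ : A₁ →L[ℂ] (E →L[ℂ] E)) (i₂ : A₂ →L[ℂ] (E →L[ℂ] E))
    (φ : E →L[ℂ] ℂ) (c : E →L[ℂ] E) (x : E) : A₁ →L[ℂ] A₂ →L[ℂ] ℂ :=
  (formT i₂ i₁ φ c x).flip

lemma formS_apply (i₁ : A₁ →L[ℂ] (E →L[ℂ] E)) (i₂ : A₂ →L[ℂ] (E →L[ℂ] E))
    (φ : E →L[ℂ] ℂ) (c : E →L[ℂ] E) (x : E) (a : A₁) (b : A₂) :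
    formS i₁ i₂ φ c x a b = φ (i₂ b (c (i₁ a x))) := rfl

lemma norm_formS_le (i₁ : A₁ →L[ℂ] (E →L[ℂ] E)) (i₂ : A₂ →L[ℂ] (E →L[ℂ] E))
    (φ : E →L[ℂ] ℂ) (Q : E →L[ℂ] E) (z : E) (h₁ : ‖i₁‖ ≤ 1) (h₂ : ‖i₂‖ ≤ 1) (hφ : ‖φ‖ ≤ 1)
    (hQ : ‖Q‖ ≤ 1) (hz : ‖z‖ ≤ 1) : ‖formS i₁ i₂ φ Q z‖ ≤ 1 := by
  unfold formS
  rw [ContinuousLinearMap.opNorm_flip]
  exact norm_formT_le i₂ i₁ φ Q z h₂ h₁ hφ hQ hz

end Forms

/-- evaluation of a functional along a bounded sequence of vectors. -/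
noncomputable def coordMap {V : Type*} [NormedAddCommGroup V] [NormedSpace ℂ V] (v : ℕ → V)
    (hv : ∀ j, ‖v j‖ ≤ 1) : (V →L[ℂ] ℂ) →L[ℂ] Linf :=
  LinearMap.mkContinuous
    { toFun := fun ξ => (⟨fun j => ξ (v j), by
        apply memℓp_infty
        refine ⟨‖ξ‖, ?_⟩
        rintro _ ⟨j, rfl⟩
        exact (ξ.le_opNorm_of_le (hv j)).trans (by simp)⟩ : Linf)
      map_add' := fun f g => lp.ext rfl
      map_smul' := fun c f => lp.ext rfl } 1 (by
        intro f
        rw [one_mul]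
        apply lp.norm_le_of_forall_le (norm_nonneg _)
        intro j
        exact (f.le_opNorm_of_le (hv j)).trans (by simp))

lemma coordMap_apply {V : Type*} [NormedAddCommGroup V] [NormedSpace ℂ V] (v : ℕ → V)
    (hv : ∀ j, ‖v j‖ ≤ 1) (ξ : V →L[ℂ] ℂ) (j : ℕ) : coordMap v hv ξ j = ξ (v j) := rfl

lemma norm_coordMap_le {V : Type*} [NormedAddCommGroup V] [NormedSpace ℂ V] (v : ℕ → V)
    (hv : ∀ j, ‖v j‖ ≤ 1) (ξ : V →L[ℂ] ℂ) : ‖coordMap v hv ξ‖ ≤ 1 * ‖ξ‖ :=
  (coordMap v hv).le_of_opNorm_le (LinearMap.mkContinuous_norm_le _ zero_le_one _) ξ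

/-! ### The rank one elements of `A` -/

namespace KData

variable {E : Type u} [NormedAddCommGroup E] [NormedSpace ℂ E]
    {A : Type u} [NonUnitalNormedRing A] [NormedSpace ℂ A] (d : KData E A)

lemma norm_i_le : ‖d.i‖ ≤ 1 :=
  ContinuousLinearMap.opNorm_le_bound _ zero_le_one (fun a => by rw [d.norm_i, one_mul])

lemma i_rk_apply (x : E) (φ : E →L[ℂ] ℂ) (z : E) : d.i (d.rk x φ) z = φ z • x := by
  rw [d.i_rk]; rfl

lemma rk_add_right (x : E) (φ ψ : E →L[ℂ] ℂ) : d.rk x (φ + ψ) = d.rk x φ + d.rk x ψ := by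
  apply d.inj
  ext z
  rw [map_add, add_apply, d.i_rk_apply, d.i_rk_apply, d.i_rk_apply,
    add_apply, add_smul]

lemma rk_smul_right (x : E) (c : ℂ) (φ : E →L[ℂ] ℂ) : d.rk x (c • φ) = c • d.rk x φ := by
  apply d.inj
  ext z
  rw [map_smul, smul_apply, d.i_rk_apply, d.i_rk_apply,
    smul_apply, smul_eq_mul, mul_smul]

lemma rk_add_left (x y : E) (φ : E →L[ℂ] ℂ) : d.rk (x + y) φ = d.rk x φ + d.rk y φ := by
  apply d.inj
  ext z
  rw [map_add, add_apply, d.i_rk_apply, d.i_rk_apply, d.i_rk_apply, smul_add]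

lemma rk_smul_left (x : E) (c : ℂ) (φ : E →L[ℂ] ℂ) : d.rk (c • x) φ = c • d.rk x φ := by
  apply d.inj
  ext z
  rw [map_smul, smul_apply, d.i_rk_apply, d.i_rk_apply, smul_comm]

/-- composition of rank one operators -/
lemma rk_mul_rk (x y : E) (φ ψ : E →L[ℂ] ℂ) : d.rk x φ * d.rk y ψ = d.rk x (φ y • ψ) := by
  apply d.inj
  ext z
  rw [d.i_mul, d.i_rk_apply]
  show d.i (d.rk x φ) (d.i (d.rk y ψ) z) = _
  rw [d.i_rk_apply, d.i_rk_apply, map_smul, smul_apply, smul_eq_mul,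
    smul_eq_mul, mul_comm]

end KData

/-! ### The space `ℓ¹` -/

section Ell1

/-- unit vectors -/
noncomputable def e1 (j : ℕ) : L1 := lp.single 1 j 1

/-- coordinate functionals -/
noncomputable def δ1 (j : ℕ) : L1 →L[ℂ] ℂ := lp.evalCLM ℂ (fun _ : ℕ => ℂ) 1 j

lemma δ1_apply (j : ℕ) (x : L1) : δ1 j x = x j := rfl

lemma norm_e1 (j : ℕ) : ‖e1 j‖ = 1 := by
  unfold e1
  rw [lp.norm_single (by norm_num)]
  simp

lemma e1_apply_self (j : ℕ) : (e1 j) j = 1 := lp.single_apply_self _ _ _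

lemma e1_apply_ne {i j : ℕ} (h : i ≠ j) : (e1 j) i = 0 := lp.single_apply_ne _ _ _ h

lemma norm_δ1_le (j : ℕ) : ‖δ1 j‖ ≤ 1 :=
  ContinuousLinearMap.opNorm_le_bound _ zero_le_one (fun x => by
    rw [one_mul]; exact lp.norm_apply_le_norm (by simp) x j)

lemma hasSum_L1 (x : L1) : HasSum (fun j => x j • e1 j) x := by
  have h := lp.hasSum_single (p := 1) (by simp) x
  convert h using 2 with j
  unfold e1
  rw [← lp.single_smul]
  simp

lemma hasSum_norm_L1 (x : L1) : HasSum (fun j => ‖x j‖) ‖x‖ := by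
  have h := lp.hasSum_norm (p := 1) (by simp) x
  simpa using h

/-- The norm of an operator on `ℓ¹` is determined by the unit vectors. -/
lemma opNorm_le_L1 {Z : Type*} [NormedAddCommGroup Z] [NormedSpace ℂ Z] (T : L1 →L[ℂ] Z) (M : ℝ)
    (hM : 0 ≤ M) (h : ∀ j, ‖T (e1 j)‖ ≤ M) : ‖T‖ ≤ M := by
  apply ContinuousLinearMap.opNorm_le_bound _ hM
  intro x
  have h1 : HasSum (fun j => T (x j • e1 j)) (T x) := T.hasSum (hasSum_L1 x)
  have h2 : HasSum (fun j => M * ‖x j‖) (M * ‖x‖) := (hasSum_norm_L1 x).mul_left M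
  apply h1.norm_le_of_bounded h2
  intro j
  rw [map_smul, norm_smul, mul_comm]
  exact mul_le_mul_of_nonneg_right (h j) (norm_nonneg _)

/-- The functional on `ℓ¹` given by a bounded sequence. -/
noncomputable def D : Linf →L[ℂ] L1 →L[ℂ] ℂ :=
  lp.dualPairing ⊤ 1 (fun _ => ContinuousLinearMap.mul ℂ ℂ) (K := 1)
    (fun _ => by simp)

lemma D_e1 (φ : Linf) (j : ℕ) : D φ (e1 j) = φ j := by
  show ∑' i, (ContinuousLinearMap.mul ℂ ℂ) (φ i) ((e1 j) i) = φ j
  rw [tsum_eq_single j]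
  · rw [e1_apply_self]; simp
  · intro i hi
    rw [e1_apply_ne hi]; simp

/-- coordinate projections -/
noncomputable def Q1 (n : ℕ) : L1 →L[ℂ] L1 := ∑ i ∈ Finset.range n, (δ1 i).smulRight (e1 i)

lemma Q1_apply (n : ℕ) (x : L1) : Q1 n x = ∑ i ∈ Finset.range n, x i • e1 i := by
  unfold Q1
  rw [sum_apply]
  rfl

lemma norm_Q1_le (n : ℕ) : ‖Q1 n‖ ≤ 1 := by
  apply opNorm_le_L1 _ _ zero_le_one
  intro j
  rw [Q1_apply]
  by_cases h : j ∈ Finset.range n
  · rw [Finset.sum_eq_single_of_mem j h]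
    · rw [e1_apply_self, one_smul, norm_e1]
    · intro i _ hij
      rw [e1_apply_ne hij, zero_smul]
  · rw [Finset.sum_eq_zero]
    · simp
    · intro i hi
      rw [e1_apply_ne, zero_smul]
      rintro rfl
      exact h hi

lemma tendsto_Q1 (x : L1) : Tendsto (fun n => Q1 n x) atTop (𝓝 x) := by
  have h := (hasSum_L1 x).tendsto_sum_nat
  refine h.congr ?_
  intro n
  rw [Q1_apply]

/-- Uniform approximation on the image of a compact operator. -/
lemma eventually_Q1_compact (b : L1 →L[ℂ] L1) (hb : IsCompactOperator b) {ε : ℝ} (hε : 0 < ε) :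
    ∀ᶠ n in atTop, ∀ j, ‖Q1 n (b (e1 j)) - b (e1 j)‖ ≤ ε := by
  obtain ⟨K, hK, hKb⟩ := IsCompactOperator.image_closedBall_subset_compact
    (f := (b : L1 →ₗ[ℂ] L1)) hb 1
  obtain ⟨t, htfin, htcov⟩ := Metric.totallyBounded_iff.mp hK.totallyBounded (ε / 3) (by positivity)
  have h1 : ∀ᶠ n in atTop, ∀ z ∈ t, ‖Q1 n z - z‖ ≤ ε / 3 := by
    rw [Filter.eventually_all_finite htfin]
    intro z _
    have h2 := (Metric.tendsto_nhds.mp (tendsto_Q1 z)) (ε / 3) (by positivity)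
    filter_upwards [h2] with n hn
    rw [dist_eq_norm] at hn
    exact hn.le
  filter_upwards [h1] with n hn
  intro j
  have h3 : b (e1 j) ∈ K := by
    apply hKb
    exact ⟨e1 j, by simp [norm_e1], rfl⟩
  have h4 := htcov h3
  simp only [Set.mem_iUnion, Metric.mem_ball] at h4
  obtain ⟨z, hz, hd⟩ := h4
  rw [dist_eq_norm] at hd
  set w := b (e1 j)
  have e : Q1 n w - w = Q1 n (w - z) + (Q1 n z - z) - (w - z) := by
    rw [map_sub]; abel
  calc ‖Q1 n w - w‖ = ‖Q1 n (w - z) + (Q1 n z - z) - (w - z)‖ := by rw [e]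
    _ ≤ ‖Q1 n (w - z) + (Q1 n z - z)‖ + ‖w - z‖ := norm_sub_le _ _
    _ ≤ ‖Q1 n (w - z)‖ + ‖Q1 n z - z‖ + ‖w - z‖ := by gcongr; exact norm_add_le _ _
    _ ≤ 1 * ‖w - z‖ + ‖Q1 n z - z‖ + ‖w - z‖ := by
        gcongr; exact (Q1 n).le_of_opNorm_le (norm_Q1_le n) _
    _ ≤ ε := by linarith [hn z hz]

variable {A : Type} [NonUnitalNormedRing A] [NormedSpace ℂ A] [IsScalarTower ℂ A A]
    [SMulCommClass ℂ A A] [CompleteSpace A] (d : KData L1 A)

lemma norm_rk_sum_le (F : Finset ℕ) (y : ℕ → Linf) (M : ℝ)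
    (h : ∀ i, ∑ k ∈ F, ‖y k i‖ ≤ M) : ‖∑ k ∈ F, d.rk (e1 k) (D (y k))‖ ≤ M := by
  have hM : 0 ≤ M := (Finset.sum_nonneg fun _ _ => norm_nonneg _).trans (h 0)
  rw [← d.norm_i]
  apply opNorm_le_L1 _ _ hM
  intro j
  rw [map_sum, sum_apply]
  refine (norm_sum_le _ _).trans ?_
  refine le_trans (Finset.sum_le_sum fun k _ => ?_) (h j)
  rw [d.i_rk_apply, norm_smul, norm_e1, mul_one, D_e1]

include d in
theorem left_contradiction (h : (leftRegular A).IsProjective) : False := by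
  classical
  obtain ⟨ρ, C, hC0, hC, hρ1, hρ2, hρ3⟩ := exists_rho_left d h
  have hid : ‖ContinuousLinearMap.id ℂ (L1 →L[ℂ] L1)‖ ≤ 1 := ContinuousLinearMap.norm_id_le
  -- the forms
  have hv : ∀ n j, ‖formT (ContinuousLinearMap.id ℂ (L1 →L[ℂ] L1)) d.i (δ1 0) (Q1 n) (e1 j)‖ ≤ 1 :=
    fun n j => norm_formT_le _ _ _ _ _ hid d.norm_i_le (norm_δ1_le 0) (norm_Q1_le n)
      (norm_e1 j).le
  have hv' : ∀ j, ‖formT (ContinuousLinearMap.id ℂ (L1 →L[ℂ] L1)) d.i (δ1 0)
      (ContinuousLinearMap.id ℂ L1) (e1 j)‖ ≤ 1 :=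
    fun j => norm_formT_le _ _ _ _ _ hid d.norm_i_le (norm_δ1_le 0)
      ContinuousLinearMap.norm_id_le (norm_e1 j).le
  obtain ⟨Θ, hΘn, hΘa⟩ : ∃ Θ : ℕ → ((((L1 →L[ℂ] L1) →L[ℂ] A →L[ℂ] ℂ) →L[ℂ] ℂ) →L[ℂ] Linf),
      (∀ n ξ, ‖Θ n ξ‖ ≤ 1 * ‖ξ‖) ∧ ∀ n ξ j, Θ n ξ j = ξ (formT
        (ContinuousLinearMap.id ℂ (L1 →L[ℂ] L1)) d.i (δ1 0) (Q1 n) (e1 j)) :=
    ⟨fun n => coordMap (fun j => formT (ContinuousLinearMap.id ℂ (L1 →L[ℂ] L1)) d.i (δ1 0)
      (Q1 n) (e1 j)) (hv n), fun n => norm_coordMap_le _ (hv n), fun _ _ _ => rfl⟩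
  obtain ⟨Θ', hΘn', hΘa'⟩ : ∃ Θ' : ((((L1 →L[ℂ] L1) →L[ℂ] A →L[ℂ] ℂ) →L[ℂ] ℂ) →L[ℂ] Linf),
      (∀ ξ, ‖Θ' ξ‖ ≤ 1 * ‖ξ‖) ∧ ∀ ξ j, Θ' ξ j = ξ (formT
        (ContinuousLinearMap.id ℂ (L1 →L[ℂ] L1)) d.i (δ1 0) (ContinuousLinearMap.id ℂ L1)
        (e1 j)) :=
    ⟨coordMap (fun j => formT (ContinuousLinearMap.id ℂ (L1 →L[ℂ] L1)) d.i (δ1 0)
      (ContinuousLinearMap.id ℂ L1) (e1 j)) hv', norm_coordMap_le _ hv', fun _ _ => rfl⟩
  have hlim : ∀ T : A, Tendsto (fun n => Θ n (ρ T)) atTop (𝓝 (Θ' (ρ T))) := by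
    intro T
    refine tendsto_of_mem_closure atTop Θ Θ' 1 zero_le_one hΘn hΘn' _ ?_ _ (hρ2 T)
    rintro _ ⟨p, rfl⟩
    obtain ⟨a, b⟩ := p
    rw [Metric.tendsto_nhds]
    intro ε hε
    have h1 := eventually_Q1_compact (d.i b) (d.compact b)
      (show 0 < ε / (2 * (‖a‖ + 1)) by positivity)
    filter_upwards [h1] with n hn
    rw [dist_eq_norm]
    have h2 : ‖Θ n (ev a b) - Θ' (ev a b)‖ ≤ ε / 2 := by
      apply lp.norm_le_of_forall_le (by positivity)
      intro j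
      have h3 : (Θ n (ev a b) - Θ' (ev a b)) j =
          δ1 0 (a (Q1 n (d.i b (e1 j)) - d.i b (e1 j))) := by
        rw [map_sub, map_sub, lp.coeFn_sub, Pi.sub_apply, hΘa, hΘa']; rfl
      rw [h3]
      calc ‖δ1 0 (a (Q1 n (d.i b (e1 j)) - d.i b (e1 j)))‖
          ≤ 1 * ‖a (Q1 n (d.i b (e1 j)) - d.i b (e1 j))‖ :=
            (δ1 0).le_of_opNorm_le (norm_δ1_le 0) _
        _ ≤ 1 * (‖a‖ * ‖Q1 n (d.i b (e1 j)) - d.i b (e1 j)‖) := by
            gcongr; exact a.le_opNorm _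
        _ ≤ 1 * ((‖a‖ + 1) * (ε / (2 * (‖a‖ + 1)))) := by
            gcongr
            · linarith
            · exact hn j
        _ = ε / 2 := by field_simp
    linarith
  have hΘ' : ∀ φ : Linf, Θ' (ρ (d.rk (e1 0) (D φ))) = φ := by
    intro φ
    apply lp.ext
    funext j
    have h1 := hρ3 (d.rk (e1 0) (D φ))
      ((δ1 0).comp ((ContinuousLinearMap.apply ℂ L1 (e1 j)).comp d.i))
      (formT (ContinuousLinearMap.id ℂ (L1 →L[ℂ] L1)) d.i (δ1 0)
        (ContinuousLinearMap.id ℂ L1) (e1 j)) (by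
          intro a b
          show δ1 0 (a (d.i b (e1 j))) = δ1 0 (d.i (d.mulL a b) (e1 j))
          rw [d.i_mulL]
          rfl)
    rw [hΘa', h1]
    show δ1 0 (d.i (d.rk (e1 0) (D φ)) (e1 j)) = φ j
    rw [d.i_rk_apply, D_e1, map_smul, δ1_apply, e1_apply_self]
    simp
  let R : ℕ → Linf →ₗ[ℂ] Linf := fun n =>
    { toFun := fun φ => Θ n (ρ (d.rk (e1 0) (D φ)))
      map_add' := fun φ ψ => by rw [map_add, d.rk_add_right, map_add, map_add]
      map_smul' := fun c φ => by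
        rw [map_smul, d.rk_smul_right, map_smul, map_smul]; rfl }
  have hRdef : ∀ n φ, R n φ = Θ n (ρ (d.rk (e1 0) (D φ))) := fun n φ => rfl
  have hR : ∀ n, OneSumming (R n) (n * C) := by
    intro n F y j M hM
    have hM0 : 0 ≤ M := (Finset.sum_nonneg fun _ _ => norm_nonneg _).trans (hM 0)
    choose ω hω1 hω2 using fun k : ℕ =>
      RCLike.exists_norm_eq_mul_self (K := ℂ) (R n (y k) (j k) : ℂ)
    let c : L1 →L[ℂ] L1 := ∑ k ∈ F, (δ1 k).smulRight (ω k • e1 (j k))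
    have hce : ∀ k ∈ F, c (e1 k) = ω k • e1 (j k) := by
      intro k hk
      simp only [c]
      rw [sum_apply, Finset.sum_eq_single_of_mem k hk]
      · show (e1 k) k • (ω k • e1 (j k)) = _
        rw [e1_apply_self, one_smul]
      · intro i _ hik
        show (e1 k) i • (ω i • e1 (j i)) = _
        rw [e1_apply_ne hik, zero_smul]
    have hc : ‖c‖ ≤ 1 := by
      apply opNorm_le_L1 _ _ zero_le_one
      intro k
      by_cases hk : k ∈ F
      · rw [hce k hk, norm_smul, hω1, norm_e1, one_mul]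
      · have : c (e1 k) = 0 := by
          simp only [c]
          rw [sum_apply]
          apply Finset.sum_eq_zero
          intro i hi
          show (e1 k) i • (ω i • e1 (j i)) = _
          rw [e1_apply_ne, zero_smul]
          rintro rfl
          exact hk hi
        rw [this, norm_zero]
        exact zero_le_one
    let β : (L1 →L[ℂ] L1) →L[ℂ] A →L[ℂ] ℂ := ∑ i ∈ Finset.range n,
      formS (ContinuousLinearMap.id ℂ (L1 →L[ℂ] L1)) d.i (δ1 i) c (e1 i)
    have hβ : ‖β‖ ≤ n := by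
      refine (norm_sum_le _ _).trans ?_
      refine (Finset.sum_le_card_nsmul _ _ 1 fun i _ => ?_).trans (by simp)
      exact norm_formS_le _ _ _ _ _ hid d.norm_i_le (norm_δ1_le i) hc (norm_e1 i).le
    have hT := norm_rk_sum_le d F y M hM
    have hval : ρ (∑ k ∈ F, d.rk (e1 k) (D (y k))) β =
        ((∑ k ∈ F, ‖R n (y k) (j k)‖ : ℝ) : ℂ) := by
      rw [map_sum ρ, sum_apply]
      push_cast
      apply Finset.sum_congr rfl
      intro k hk
      refine Eq.trans ?_ (hω2 k).symm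
      have h1 : d.rk (e1 k) (D (y k)) = d.rk (e1 k) (δ1 0) * d.rk (e1 0) (D (y k)) := by
        rw [d.rk_mul_rk, δ1_apply, e1_apply_self, one_smul]
      rw [h1, hρ1]
      have h2 : β.comp (Lmul (d.i (d.rk (e1 k) (δ1 0)))) =
          ω k • formT (ContinuousLinearMap.id ℂ (L1 →L[ℂ] L1)) d.i (δ1 0) (Q1 n) (e1 (j k)) := by
        ext a b
        show β (d.i (d.rk (e1 k) (δ1 0)) * a) b = ω k * δ1 0 (a (Q1 n (d.i b (e1 (j k)))))
        simp only [β]
        rw [sum_apply, sum_apply, Q1_apply, map_sum,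
          map_sum, Finset.mul_sum]
        apply Finset.sum_congr rfl
        intro i _
        show δ1 i (d.i b (c (d.i (d.rk (e1 k) (δ1 0)) (a (e1 i))))) = _
        rw [d.i_rk_apply, map_smul, hce k hk, map_smul, map_smul, map_smul, map_smul, map_smul,
          map_smul]
        simp only [smul_eq_mul, δ1_apply]
        ring
      rw [h2, map_smul, smul_eq_mul, hRdef, hΘa]
    have h3 : ‖ρ (∑ k ∈ F, d.rk (e1 k) (D (y k))) β‖ ≤ C * M * n := by
      calc ‖ρ (∑ k ∈ F, d.rk (e1 k) (D (y k))) β‖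
          ≤ ‖ρ (∑ k ∈ F, d.rk (e1 k) (D (y k)))‖ * ‖β‖ := ContinuousLinearMap.le_opNorm _ _
        _ ≤ (C * ‖∑ k ∈ F, d.rk (e1 k) (D (y k))‖) * ‖β‖ := by
            gcongr; exact hC _
        _ ≤ C * M * n := by gcongr
    rw [hval, Complex.norm_real,
      Real.norm_of_nonneg (Finset.sum_nonneg fun _ _ => norm_nonneg _)] at h3
    calc ∑ k ∈ F, ‖R n (y k) (j k)‖ ≤ C * M * n := h3
      _ = n * C * M := by ring
  apply finale atTop R (fun n => n * C) hR ∅ Set.countable_empty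
  intro x _
  have h1 := hlim (d.rk (e1 0) (D (ind (adSet x))))
  rw [hΘ'] at h1
  exact h1

end Ell1


section EllInf

/-- coordinate functionals on `ℓ^∞` -/
noncomputable def δ8 (j : ℕ) : Linf →L[ℂ] ℂ := lp.evalCLM ℂ (fun _ : ℕ => ℂ) ⊤ j

lemma δ8_apply (j : ℕ) (x : Linf) : δ8 j x = x j := rfl

lemma norm_δ8_le (j : ℕ) : ‖δ8 j‖ ≤ 1 :=
  ContinuousLinearMap.opNorm_le_bound _ zero_le_one (fun x => by
    rw [one_mul]; exact lp.norm_apply_le_norm (by simp) x j)

lemma norm_ind_le (N : Set ℕ) : ‖ind N‖ ≤ 1 := by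
  apply lp.norm_le_of_forall_le zero_le_one
  intro j
  by_cases h : j ∈ N
  · rw [ind_apply_mem h]; simp
  · rw [ind_apply_notMem h]; simp

lemma ind_singleton_self (j : ℕ) : ind {j} j = 1 := ind_apply_mem (by simp)

lemma ind_singleton_ne {i j : ℕ} (h : i ≠ j) : ind {j} i = 0 := ind_apply_notMem (by simpa using h)

/-- `compOp h f` as a finite sum if `h` has finite range. -/
lemma compOp_eq_sum (h : ℕ → ℕ) (H : Finset ℕ) (hH : ∀ j, h j ∈ H) (f : Linf) :
    compOp h f = ∑ i ∈ H, f i • ind (h ⁻¹' {i}) := by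
  apply lp.ext
  funext j
  rw [compOp_apply, lp.coeFn_sum, Finset.sum_apply, Finset.sum_eq_single_of_mem (h j) (hH j)]
  · rw [lp.coeFn_smul, Pi.smul_apply, ind_apply_mem (by simp), smul_eq_mul, mul_one]
  · intro i _ hi
    rw [lp.coeFn_smul, Pi.smul_apply, ind_apply_notMem, smul_zero]
    simpa using hi.symm

variable {A : Type} [NonUnitalNormedRing A] [NormedSpace ℂ A] [IsScalarTower ℂ A A]
    [SMulCommClass ℂ A A] [CompleteSpace A] (d : KData Linf A)

lemma norm_rk_sum_le8 (F : Finset ℕ) (y : ℕ → Linf) (M : ℝ)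
    (h : ∀ i, ∑ k ∈ F, ‖y k i‖ ≤ M) : ‖∑ k ∈ F, d.rk (y k) (δ8 k)‖ ≤ M := by
  have hM : 0 ≤ M := (Finset.sum_nonneg fun _ _ => norm_nonneg _).trans (h 0)
  rw [← d.norm_i]
  apply ContinuousLinearMap.opNorm_le_bound _ hM
  intro f
  rw [map_sum, sum_apply]
  apply lp.norm_le_of_forall_le (by positivity)
  intro i
  rw [lp.coeFn_sum, Finset.sum_apply]
  refine (norm_sum_le _ _).trans ?_
  rw [mul_comm]
  refine le_trans (Finset.sum_le_sum fun k _ => ?_)
    (le_of_eq_of_le (Finset.mul_sum F (fun k => ‖y k i‖) ‖f‖).symm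
      (mul_le_mul_of_nonneg_left (h i) (norm_nonneg f)))
  rw [d.i_rk_apply, lp.coeFn_smul, Pi.smul_apply, norm_smul]
  exact mul_le_mul_of_nonneg_right (lp.norm_apply_le_norm (by simp) f k) (norm_nonneg _)

/-- The index set of finite range maps. -/
abbrev FR := {h : ℕ → ℕ // (Set.range h).Finite}

/-- The family of composition operators as a map into a product space. -/
noncomputable def FRmap : FR → (Linf → Linf) := fun h v => compOp h.1 v

/-- filter of finite range maps `h` along which `f ∘ h → f` for all `f`. -/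
noncomputable def FRfilter : Filter FR := (𝓝 (id : Linf → Linf)).comap FRmap

lemma tendsto_FR (v : Linf) : Tendsto (fun h : FR => compOp h.1 v) FRfilter (𝓝 v) := by
  have h : Tendsto FRmap FRfilter (𝓝 (id : Linf → Linf)) := tendsto_comap
  exact (tendsto_pi_nhds.mp h) v

lemma exists_pos_le_finset {α : Type*} (I : Finset α) (ε : α → ℝ) (hε : ∀ v, 0 < ε v) :
    ∃ r > 0, ∀ v ∈ I, r ≤ ε v := by
  classical
  induction I using Finset.induction_on with
  | empty => exact ⟨1, one_pos, by simp⟩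
  | insert a s _ ih =>
    obtain ⟨r, hr, h⟩ := ih
    refine ⟨min r (ε a), lt_min hr (hε a), ?_⟩
    intro v hv
    rcases Finset.mem_insert.mp hv with rfl | hv
    · exact min_le_right _ _
    · exact (min_le_left _ _).trans (h v hv)

instance : FRfilter.NeBot := by
  classical
  refine Filter.comap_neBot fun t ht => ?_
  rw [nhds_pi, Filter.mem_pi] at ht
  obtain ⟨I, hI, u, hu, hsub⟩ := ht
  have h1 : ∀ v : Linf, ∃ ε > 0, Metric.ball v ε ⊆ u v := fun v => Metric.mem_nhds_iff.mp (hu v)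
  choose ε hε hball using h1
  obtain ⟨r, hr, hle⟩ := exists_pos_le_finset hI.toFinset ε hε
  obtain ⟨h, hfin, happ⟩ := exists_finite_range hI.toFinset (half_pos hr)
  refine ⟨⟨h, hfin⟩, ?_⟩
  apply hsub
  intro v hv
  apply hball
  rw [Metric.mem_ball, dist_eq_norm]
  have h2 := happ v (by simpa using hv)
  have h3 := hle v (by simpa using hv)
  calc ‖compOp h v - v‖ ≤ r / 2 := h2
    _ < ε v := by linarith

lemma norm_rk_le8 (y : Linf) : ‖d.rk y (δ8 0)‖ ≤ ‖y‖ := by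
  rw [← d.norm_i]
  apply ContinuousLinearMap.opNorm_le_bound _ (norm_nonneg _)
  intro f
  rw [d.i_rk_apply, norm_smul, mul_comm]
  exact mul_le_mul_of_nonneg_left (lp.norm_apply_le_norm (by simp) f 0) (norm_nonneg _)

lemma coordMap_formT_ev {A₁ A₂ : Type} [NormedAddCommGroup A₁] [NormedSpace ℂ A₁]
    [NormedAddCommGroup A₂] [NormedSpace ℂ A₂]
    (i₁ : A₁ →L[ℂ] (Linf →L[ℂ] Linf)) (i₂ : A₂ →L[ℂ] (Linf →L[ℂ] Linf))
    (Q : Linf →L[ℂ] Linf) (z : Linf) (hv : ∀ j, ‖formT i₁ i₂ (δ8 j) Q z‖ ≤ 1)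
    (a : A₁) (b : A₂) :
    coordMap (fun j => formT i₁ i₂ (δ8 j) Q z) hv (ev a b) = i₁ a (Q (i₂ b z)) := by
  apply lp.ext
  funext j
  rw [coordMap_apply, ev_apply, formT_apply, δ8_apply]

include d in
theorem right_contradiction (h : (rightRegular A).IsProjective) : False := by
  classical
  obtain ⟨ρ, C0, hC00, hC0, hρ1, hρ2, hρ3⟩ := exists_rho_right d h
  have hid : ‖ContinuousLinearMap.id ℂ (Linf →L[ℂ] Linf)‖ ≤ 1 := ContinuousLinearMap.norm_id_le
  -- the forms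
  have hv : ∀ (h : FR) j, ‖formT d.i (ContinuousLinearMap.id ℂ (Linf →L[ℂ] Linf)) (δ8 j)
      (compOp h.1) (ind {0})‖ ≤ 1 :=
    fun h j => norm_formT_le _ _ _ _ _ d.norm_i_le hid (norm_δ8_le j) (norm_compOp_le _)
      (norm_ind_le _)
  have hv' : ∀ j, ‖formT d.i (ContinuousLinearMap.id ℂ (Linf →L[ℂ] Linf)) (δ8 j)
      (ContinuousLinearMap.id ℂ Linf) (ind {0})‖ ≤ 1 :=
    fun j => norm_formT_le _ _ _ _ _ d.norm_i_le hid (norm_δ8_le j)
      ContinuousLinearMap.norm_id_le (norm_ind_le _)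
  obtain ⟨Θ, hΘn, hΘa⟩ : ∃ Θ : FR → (((A →L[ℂ] (Linf →L[ℂ] Linf) →L[ℂ] ℂ) →L[ℂ] ℂ) →L[ℂ] Linf),
      (∀ h ξ, ‖Θ h ξ‖ ≤ 1 * ‖ξ‖) ∧ ∀ h ξ j, Θ h ξ j = ξ (formT d.i
        (ContinuousLinearMap.id ℂ (Linf →L[ℂ] Linf)) (δ8 j) (compOp h.1) (ind {0})) :=
    ⟨fun h => coordMap (fun j => formT d.i (ContinuousLinearMap.id ℂ (Linf →L[ℂ] Linf)) (δ8 j)
      (compOp h.1) (ind {0})) (hv h), fun h => norm_coordMap_le _ (hv h), fun _ _ _ => rfl⟩
  obtain ⟨Θ', hΘn', hΘa'⟩ : ∃ Θ' : (((A →L[ℂ] (Linf →L[ℂ] Linf) →L[ℂ] ℂ) →L[ℂ] ℂ) →L[ℂ] Linf),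
      (∀ ξ, ‖Θ' ξ‖ ≤ 1 * ‖ξ‖) ∧ ∀ ξ j, Θ' ξ j = ξ (formT d.i
        (ContinuousLinearMap.id ℂ (Linf →L[ℂ] Linf)) (δ8 j) (ContinuousLinearMap.id ℂ Linf)
        (ind {0})) :=
    ⟨coordMap (fun j => formT d.i (ContinuousLinearMap.id ℂ (Linf →L[ℂ] Linf)) (δ8 j)
      (ContinuousLinearMap.id ℂ Linf) (ind {0})) hv', norm_coordMap_le _ hv', fun _ _ => rfl⟩
  have hΘev : ∀ (h : FR) (a : A) (b : Linf →L[ℂ] Linf),
      Θ h (ev a b) = d.i a (compOp h.1 (b (ind {0}))) := by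
    intro h a b
    apply lp.ext
    funext j
    rw [hΘa, ev_apply, formT_apply, δ8_apply]
    rfl
  have hΘev' : ∀ (a : A) (b : Linf →L[ℂ] Linf),
      Θ' (ev a b) = d.i a (b (ind {0})) := by
    intro a b
    apply lp.ext
    funext j
    rw [hΘa', ev_apply, formT_apply, δ8_apply]
    rfl
  have hlim : ∀ T : A, Tendsto (fun h => Θ h (ρ T)) FRfilter (𝓝 (Θ' (ρ T))) := by
    intro T
    refine tendsto_of_mem_closure FRfilter Θ Θ' 1 zero_le_one hΘn hΘn' _ ?_ _ (hρ2 T)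
    rintro _ ⟨p, rfl⟩
    obtain ⟨a, b⟩ := p
    simp only [hΘev, hΘev']
    exact ((d.i a).continuous.tendsto _).comp (tendsto_FR (b (ind {0})))
  have hultra : ∀ (U : Ultrafilter ℕ) (hn : ℕ → FR) (T : A),
      ∃ z, Tendsto (fun n => Θ (hn n) (ρ T)) U (𝓝 z) := by
    intro U hn T
    refine exists_limit_of_mem_closure (U : Filter ℕ) (fun n => Θ (hn n)) 1 zero_le_one
      (fun n => hΘn (hn n)) _ ?_ _ (hρ2 T)
    rintro _ ⟨p, rfl⟩
    obtain ⟨a, b⟩ := p
    simp only [hΘev]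
    obtain ⟨K, hK, hKa⟩ := IsCompactOperator.image_closedBall_subset_compact
      (f := (d.i a : Linf →ₗ[ℂ] Linf)) (d.compact a) ‖b (ind {0})‖
    have h1 : ((U.map fun n => d.i a (compOp (hn n).1 (b (ind {0}))) : Ultrafilter Linf) :
        Filter Linf) ≤ 𝓟 K := by
      rw [Filter.le_principal_iff]
      change K ∈ Filter.map _ (U : Filter ℕ)
      rw [Filter.mem_map]
      refine Filter.mem_of_superset Filter.univ_mem fun n _ => ?_
      apply hKa
      refine ⟨compOp (hn n).1 (b (ind {0})), ?_, rfl⟩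
      rw [Metric.mem_closedBall, dist_zero_right]
      calc ‖compOp (hn n).1 (b (ind {0}))‖ ≤ 1 * ‖b (ind {0})‖ :=
            (compOp (hn n).1).le_of_opNorm_le (norm_compOp_le _) _
        _ = ‖b (ind {0})‖ := one_mul _
    obtain ⟨z, _, hz⟩ := hK.ultrafilter_le_nhds _ h1
    exact ⟨z, hz⟩
  have hΘ'id : ∀ y : Linf, Θ' (ρ (d.rk y (δ8 0))) = y := by
    intro y
    apply lp.ext
    funext j
    have h1 := hρ3 (d.rk y (δ8 0))
      ((δ8 j).comp ((ContinuousLinearMap.apply ℂ Linf (ind {0})).comp d.i))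
      (formT d.i (ContinuousLinearMap.id ℂ (Linf →L[ℂ] Linf)) (δ8 j)
        (ContinuousLinearMap.id ℂ Linf) (ind {0})) (by
          intro a b
          show δ8 j (d.i a (b (ind {0}))) = δ8 j (d.i (d.mulR a b) (ind {0}))
          rw [d.i_mulR]
          rfl)
    rw [hΘa', h1]
    show δ8 j (d.i (d.rk y (δ8 0)) (ind {0})) = y j
    rw [d.i_rk_apply, δ8_apply, δ8_apply, ind_singleton_self, one_smul]
  let R : FR → Linf →ₗ[ℂ] Linf := fun h =>
    { toFun := fun y => Θ h (ρ (d.rk y (δ8 0)))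
      map_add' := fun x y => by rw [d.rk_add_left, map_add, map_add]
      map_smul' := fun c x => by
        rw [d.rk_smul_left, map_smul, map_smul]; rfl }
  have hRdef : ∀ h y, R h y = Θ h (ρ (d.rk y (δ8 0))) := fun h y => rfl
  have hRnorm : ∀ h y, ‖R h y‖ ≤ C0 * ‖y‖ := by
    intro h y
    rw [hRdef]
    calc ‖Θ h (ρ (d.rk y (δ8 0)))‖ ≤ 1 * ‖ρ (d.rk y (δ8 0))‖ :=
          hΘn h _
      _ ≤ 1 * (C0 * ‖d.rk y (δ8 0)‖) := by gcongr; exact hC0 _
      _ ≤ 1 * (C0 * ‖y‖) := by gcongr; exact norm_rk_le8 d y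
      _ = C0 * ‖y‖ := one_mul _
  have hR : ∀ h : FR, ∃ C, OneSumming (R h) C := by
    intro h
    let H : Finset ℕ := h.2.toFinset
    have hH : ∀ j, h.1 j ∈ H := fun j => by simp [H]
    refine ⟨H.card * C0, ?_⟩
    intro F y j M hM
    have hM0 : 0 ≤ M := (Finset.sum_nonneg fun _ _ => norm_nonneg _).trans (hM 0)
    choose ω hω1 hω2 using fun k : ℕ =>
      RCLike.exists_norm_eq_mul_self (K := ℂ) (R h (y k) (j k) : ℂ)
    let c : Linf →L[ℂ] Linf := ∑ k ∈ F, (δ8 (j k)).smulRight (ω k • ind {k})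
    have hck : ∀ k ∈ F, ∀ f, c f k = ω k * f (j k) := by
      intro k hk f
      simp only [c]
      rw [sum_apply, lp.coeFn_sum, Finset.sum_apply, Finset.sum_eq_single_of_mem k hk]
      · show f (j k) * (ω k * ind {k} k) = _
        rw [ind_singleton_self]; ring
      · intro i _ hik
        show f (j i) * (ω i * ind {i} k) = _
        rw [ind_singleton_ne hik.symm]; ring
    have hc : ‖c‖ ≤ 1 := by
      apply ContinuousLinearMap.opNorm_le_bound _ zero_le_one
      intro f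
      rw [one_mul]
      apply lp.norm_le_of_forall_le (norm_nonneg _)
      intro k
      by_cases hk : k ∈ F
      · rw [hck k hk f, norm_mul, hω1, one_mul]
        exact lp.norm_apply_le_norm (by simp) f (j k)
      · have : c f k = 0 := by
          simp only [c]
          rw [sum_apply, lp.coeFn_sum, Finset.sum_apply]
          apply Finset.sum_eq_zero
          intro i hi
          show f (j i) * (ω i * ind {i} k) = _
          rw [ind_singleton_ne, mul_zero, mul_zero]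
          rintro rfl
          exact hk hi
        rw [this, norm_zero]
        exact norm_nonneg _
    let β : A →L[ℂ] (Linf →L[ℂ] Linf) →L[ℂ] ℂ := ∑ i ∈ H,
      formS d.i (ContinuousLinearMap.id ℂ (Linf →L[ℂ] Linf)) (δ8 i) c (ind (h.1 ⁻¹' {i}))
    have hβ : ‖β‖ ≤ H.card := by
      refine (norm_sum_le _ _).trans ?_
      refine (Finset.sum_le_card_nsmul _ _ 1 fun i _ => ?_).trans (by simp)
      exact norm_formS_le _ _ _ _ _ d.norm_i_le hid (norm_δ8_le i) hc (norm_ind_le _)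
    have hT := norm_rk_sum_le8 d F y M hM
    have hval : ρ (∑ k ∈ F, d.rk (y k) (δ8 k)) β =
        ((∑ k ∈ F, ‖R h (y k) (j k)‖ : ℝ) : ℂ) := by
      rw [map_sum ρ, sum_apply]
      push_cast
      apply Finset.sum_congr rfl
      intro k hk
      refine Eq.trans ?_ (hω2 k).symm
      have h1 : d.rk (y k) (δ8 k) = d.rk (y k) (δ8 0) * d.rk (ind {0}) (δ8 k) := by
        rw [d.rk_mul_rk, δ8_apply, ind_singleton_self, one_smul]
      rw [h1, hρ1 _ _ β (ω k • formT d.i (ContinuousLinearMap.id ℂ (Linf →L[ℂ] Linf)) (δ8 (j k))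
        (compOp h.1) (ind {0})) ?_]
      · rw [map_smul, smul_eq_mul, hRdef, hΘa]
      · intro a b
        show ω k * δ8 (j k) (d.i a (compOp h.1 (b (ind {0})))) =
          β a (b * d.i (d.rk (ind {0}) (δ8 k)))
        simp only [β]
        rw [sum_apply, sum_apply, compOp_eq_sum h.1 H hH, map_sum, map_sum, Finset.mul_sum]
        apply Finset.sum_congr rfl
        intro i _
        show _ = δ8 i (b (d.i (d.rk (ind {0}) (δ8 k)) (c (d.i a (ind (h.1 ⁻¹' {i}))))))
        rw [d.i_rk_apply, map_smul, map_smul, map_smul, map_smul]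
        simp only [smul_eq_mul, δ8_apply]
        rw [hck k hk]
        ring
    have h3 : ‖ρ (∑ k ∈ F, d.rk (y k) (δ8 k)) β‖ ≤ C0 * M * H.card := by
      calc ‖ρ (∑ k ∈ F, d.rk (y k) (δ8 k)) β‖
          ≤ ‖ρ (∑ k ∈ F, d.rk (y k) (δ8 k))‖ * ‖β‖ := ContinuousLinearMap.le_opNorm _ _
        _ ≤ (C0 * ‖∑ k ∈ F, d.rk (y k) (δ8 k)‖) * ‖β‖ := by
            gcongr; exact hC0 _
        _ ≤ C0 * M * H.card := by gcongr
    rw [hval, Complex.norm_real,
      Real.norm_of_nonneg (Finset.sum_nonneg fun _ _ => norm_nonneg _)] at h3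
    calc ∑ k ∈ F, ‖R h (y k) (j k)‖ ≤ C0 * M * H.card := h3
      _ = H.card * C0 * M := by ring
  -- a sequence of finite range maps
  have hseq : ∀ n : ℕ, ∃ h : FR, ∀ u ∈ Finset.range (n + 1),
      ‖R h (ind {u}) - ind {u}‖ < 1 / ((n : ℝ) + 1) := by
    intro n
    have h1 : ∀ᶠ h in FRfilter, ∀ u ∈ Finset.range (n + 1),
        ‖R h (ind {u}) - ind {u}‖ < 1 / ((n : ℝ) + 1) := by
      rw [Filter.eventually_all_finset]
      intro u _
      have h2 := hlim (d.rk (ind {u}) (δ8 0))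
      rw [hΘ'id] at h2
      have h3 := (Metric.tendsto_nhds.mp h2) (1 / ((n : ℝ) + 1)) (by positivity)
      filter_upwards [h3] with h hh
      rw [dist_eq_norm] at hh
      exact hh
    exact h1.exists
  choose hn hhn using hseq
  have hunit : ∀ u : ℕ, Tendsto (fun n => R (hn n) (ind {u})) atTop (𝓝 (ind {u})) := by
    intro u
    rw [tendsto_iff_norm_sub_tendsto_zero]
    refine squeeze_zero' (Filter.Eventually.of_forall fun _ => norm_nonneg _) ?_
      tendsto_one_div_add_atTop_nhds_zero_nat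
    filter_upwards [Filter.eventually_ge_atTop u] with n hnu
    exact (hhn n u (by simp; omega)).le
  let U : Ultrafilter ℕ := Filter.hyperfilter ℕ
  have hU : (U : Filter ℕ) ≤ atTop := Nat.hyperfilter_le_atTop
  choose S0 hS0 using fun y : Linf => hultra U hn (d.rk y (δ8 0))
  let S : Linf →L[ℂ] Linf := LinearMap.mkContinuous
    { toFun := S0
      map_add' := fun x y => by
        apply tendsto_nhds_unique (hS0 (x + y))
        have h1 := (hS0 x).add (hS0 y)
        refine h1.congr fun n => ?_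
        rw [d.rk_add_left, map_add, map_add]
      map_smul' := fun c x => by
        apply tendsto_nhds_unique (hS0 (c • x))
        have h1 := (hS0 x).const_smul c
        refine h1.congr fun n => ?_
        rw [d.rk_smul_left, map_smul, map_smul] } C0 (by
          intro y
          refine le_of_tendsto (hS0 y).norm (Filter.Eventually.of_forall fun n => ?_)
          exact hRnorm (hn n) y)
  have hSlim : ∀ y, Tendsto (fun n => R (hn n) y) U (𝓝 (S y)) := fun y => hS0 y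
  have hSunit : ∀ u : ℕ, S (ind {u}) = ind {u} := fun u =>
    tendsto_nhds_unique (hSlim _) ((hunit u).mono_left hU)
  let ξ : ℕ → Linf →L[ℂ] ℂ := fun j => (δ8 j).comp (ContinuousLinearMap.id ℂ Linf - S)
  have hξ : ∀ j, ∀ s : Set ℕ, s.Finite → ξ j (ind s) = 0 := by
    intro j s hs
    obtain ⟨F, rfl⟩ := hs.exists_finset_coe
    rw [ind_finset, map_sum]
    apply Finset.sum_eq_zero
    intro u _
    show δ8 j (ind {u} - S (ind {u})) = 0
    rw [hSunit, sub_self, map_zero]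
  choose C hC using hR
  apply finale (U : Filter ℕ) (fun n => R (hn n)) (fun n => C (hn n)) (fun n => hC (hn n))
    (⋃ j, {x : Set ℕ | ξ j (ind (adSet x)) ≠ 0})
    (Set.countable_iUnion fun j => countable_support_functional (ξ j) (hξ j))
  intro x hx
  have h1 : S (ind (adSet x)) = ind (adSet x) := by
    apply lp.ext
    funext j
    by_contra hne
    apply hx
    refine Set.mem_iUnion.mpr ⟨j, ?_⟩
    show δ8 j (ind (adSet x) - S (ind (adSet x))) ≠ 0
    rw [δ8_apply, lp.coeFn_sub, Pi.sub_apply]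
    intro h2
    exact hne (sub_eq_zero.mp h2).symm
  have h2 := hSlim (ind (adSet x))
  rw [h1] at h2
  exact h2

end EllInf


end Pool.Agent.Helper85.CompactHered
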