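import Pool.Agent.Helper85.SlitCIADefs

/-!
# Auxiliary results for the counterexample on vertical convexity under a slit condition

The domain is an affine image of the upper half-plane minus the ray `i[1, ∞)`, with base point
`w₀ = (500 + 51 i)/101`.
-/

open Complex Set Metric

namespace Pool.Agent.Helper85.SlitCIA

/-! ## The first quadrant and the map `J u = (u - 1/u)/2` -/

/-- the first quadrant -/
def Q : Set ℂ := {u | 0 < u.re ∧ 0 < u.im}

/-- the upper half-plane minus the ray `i[1, ∞)` -/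
def GG : Set ℂ := {w | 0 < w.im ∧ (w.re = 0 → w.im < 1)}

/-- `J u = (u - 1/u)/2` -/
noncomputable def J (u : ℂ) : ℂ := (u - u⁻¹) / 2

lemma J_re (u : ℂ) : (J u).re = (u.re - u.re / normSq u) / 2 := by
  simp [J]

lemma J_im (u : ℂ) : (J u).im = (u.im + u.im / normSq u) / 2 := by
  simp [J, neg_div]

lemma normSq_pos_of_Q {u : ℂ} (hu : u ∈ Q) : 0 < normSq u := by
  rw [normSq_apply]
  have h1 := hu.1
  have h2 := hu.2
  positivity

lemma ne_zero_of_Q {u : ℂ} (hu : u ∈ Q) : u ≠ 0 := by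
  intro h
  have := normSq_pos_of_Q hu
  rw [h] at this
  simp at this

lemma J_mem {u : ℂ} (hu : u ∈ Q) : J u ∈ GG := by
  have hN := normSq_pos_of_Q hu
  obtain ⟨h1, h2⟩ := hu
  constructor
  · rw [J_im]; positivity
  · intro h
    rw [J_re] at h
    rw [J_im]
    have h3 : u.re / normSq u = u.re := by linarith
    rw [div_eq_iff hN.ne'] at h3
    have h4 : normSq u = 1 := by
      have : u.re * (normSq u - 1) = 0 := by linarith
      rcases mul_eq_zero.mp this with h | h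
      · exact absurd h h1.ne'
      · linarith
    rw [h4, div_one]
    rw [normSq_apply] at h4
    nlinarith

lemma J_injOn : InjOn J Q := by
  intro u hu v hv h
  have hu0 := ne_zero_of_Q hu
  have hv0 := ne_zero_of_Q hv
  unfold J at h
  have h1 : (u - v) * (u * v + 1) = 0 := by
    field_simp at h
    linear_combination h
  rcases mul_eq_zero.mp h1 with h2 | h2
  · exact sub_eq_zero.mp h2
  · exfalso
    have h3 := congrArg Complex.im h2
    simp at h3
    have := hu.1; have := hu.2; have := hv.1; have := hv.2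
    nlinarith [mul_pos hu.1 hv.2, mul_pos hu.2 hv.1]

lemma J_surj {w : ℂ} (hw : w ∈ GG) : ∃ u ∈ Q, J u = w := by
  obtain ⟨s, hs⟩ := IsAlgClosed.exists_pow_nat_eq (w ^ 2 + 1) (n := 2) (by norm_num)
  have key : ∀ u v : ℂ, u * v = -1 → u + v = 2 * w → J u = w := by
    intro u v huv hsum
    have hu0 : u ≠ 0 := by rintro rfl; simp at huv
    have : v = -u⁻¹ := by
      field_simp
      linear_combination huv
    unfold J
    rw [this] at hsum
    linear_combination hsum / 2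
  have hprod : (w + s) * (w - s) = -1 := by linear_combination -hs
  have hsum : (w + s) + (w - s) = 2 * w := by ring
  set u := w + s with hu
  set v := w - s with hv
  have hu0 : u ≠ 0 := by intro h; rw [h] at hprod; simp at hprod
  have hN : 0 < normSq u := normSq_pos.mpr hu0
  have hvu : v = -u⁻¹ := by
    field_simp
    linear_combination hprod
  have hvre : v.re = - u.re / normSq u := by rw [hvu]; simp [neg_div]
  have hvim : v.im = u.im / normSq u := by rw [hvu]; simp [neg_div]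
  have him : u.im + u.im / normSq u = 2 * w.im := by
    have := congrArg Complex.im hsum
    rw [add_im, hvim] at this
    simpa using this
  have hupos : 0 < u.im := by
    have h1 : u.im * (1 + 1 / normSq u) = 2 * w.im := by rw [← him]; ring
    have h2 : 0 < 1 + 1 / normSq u := by positivity
    have h3 : 0 < u.im * (1 + 1 / normSq u) := by rw [h1]; linarith [hw.1]
    exact (pos_iff_pos_of_mul_pos h3).mpr h2
  rcases lt_trichotomy u.re 0 with h | h | h
  · refine ⟨v, ⟨?_, ?_⟩, key v u (by rw [mul_comm]; exact hprod) (by rw [add_comm]; exact hsum)⟩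
    · rw [hvre]; exact div_pos (by linarith) hN
    · rw [hvim]; positivity
  · exfalso
    have h1 : w.re = 0 := by
      have := congrArg Complex.re hsum
      rw [add_re, hvre, h] at this
      simp at this
      exact this
    have h2 := hw.2 h1
    have h3 : normSq u = u.im ^ 2 := by rw [normSq_apply, h]; ring
    rw [h3] at him
    have h4 : u.im / u.im ^ 2 = 1 / u.im := by field_simp
    rw [h4] at him
    have h5 : u.im + 1 / u.im ≥ 2 := by
      have : (u.im - 1) ^ 2 / u.im ≥ 0 := by positivity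
      have h6 : (u.im - 1) ^ 2 / u.im = u.im + 1 / u.im - 2 := by field_simp; ring
      linarith
    linarith
  · exact ⟨u, ⟨h, hupos⟩, key u v hprod hsum⟩

lemma J_differentiableAt {u : ℂ} (hu : u ≠ 0) : DifferentiableAt ℂ J u := by
  unfold J
  fun_prop (disch := assumption)

/-! ## The square root -/

/-- the square root from the upper half-plane to the first quadrant -/
noncomputable def g (ξ : ℂ) : ℂ := Complex.exp (Complex.log ξ / 2)

lemma g_sq {ξ : ℂ} (h : ξ ≠ 0) : g ξ ^ 2 = ξ := by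
  rw [g, ← Complex.exp_nat_mul]
  rw [show ((2 : ℕ) : ℂ) * (Complex.log ξ / 2) = Complex.log ξ by push_cast; ring]
  exact Complex.exp_log h

lemma g_mem {ξ : ℂ} (h : 0 < ξ.im) : g ξ ∈ Q := by
  have h1 : 0 < arg ξ := by
    have h2 : 0 ≤ arg ξ := arg_nonneg_iff.mpr h.le
    rcases h2.eq_or_lt with h3 | h3
    · exfalso
      have := (arg_eq_zero_iff.mp h3.symm).2
      linarith
    · exact h3
  have h2 : arg ξ < Real.pi := by
    rcases (arg_le_pi ξ).eq_or_lt with h3 | h3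
    · exfalso
      have := (arg_eq_pi_iff.mp h3).2
      linarith
    · exact h3
  have him : (Complex.log ξ / 2).im = arg ξ / 2 := by
    rw [show (2 : ℂ) = ((2 : ℝ) : ℂ) by norm_num, div_ofReal_im, log_im]
  constructor
  · rw [g, exp_re, him]
    have : 0 < Real.cos (arg ξ / 2) :=
      Real.cos_pos_of_mem_Ioo ⟨by linarith [Real.pi_pos], by linarith⟩
    positivity
  · rw [g, exp_im, him]
    have : 0 < Real.sin (arg ξ / 2) := Real.sin_pos_of_pos_of_lt_pi (by linarith) (by linarith [Real.pi_pos])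
    positivity

lemma g_differentiableAt {ξ : ℂ} (h : 0 < ξ.im) : DifferentiableAt ℂ g ξ := by
  unfold g
  have h1 : ξ ∈ slitPlane := by
    rw [mem_slitPlane_iff]; right; exact h.ne'
  have := differentiableAt_log h1
  fun_prop

lemma sq_im_pos {u : ℂ} (hu : u ∈ Q) : 0 < (u ^ 2).im := by
  rw [sq, mul_im]
  have := mul_pos hu.1 hu.2
  linarith [mul_comm u.re u.im]

lemma eq_of_sq_eq {u v : ℂ} (hu : u ∈ Q) (hv : v ∈ Q) (h : u ^ 2 = v ^ 2) : u = v := by
  rcases sq_eq_sq_iff_eq_or_eq_neg.mp h with h | h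
  · exact h
  · exfalso
    have := congrArg Complex.re h
    rw [neg_re] at this
    linarith [hu.1, hv.1]

lemma g_sq_eq {u : ℂ} (hu : u ∈ Q) : g (u ^ 2) = u := by
  have h1 := sq_im_pos hu
  have h0 : u ^ 2 ≠ 0 := pow_ne_zero 2 (ne_zero_of_Q hu)
  exact eq_of_sq_eq (g_mem h1) hu (g_sq h0)

/-! ## The Moebius map -/

/-- the map of the disc to the upper half-plane with `M 0 = 99 + 20 i = (10 + i)²` -/
noncomputable def M (z : ℂ) : ℂ := 99 + 20 * (I * (1 + z) / (1 - z))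

/-- its inverse -/
noncomputable def Mi (ξ : ℂ) : ℂ := (ξ - (99 + 20 * I)) / (ξ - (99 - 20 * I))

lemma one_sub_ne {z : ℂ} (hz : z ∈ ball (0 : ℂ) 1) : 1 - z ≠ 0 := by
  intro h
  have : z = 1 := (sub_eq_zero.mp h).symm
  rw [this] at hz
  simp at hz

lemma M_im {z : ℂ} (hz : z ∈ ball (0 : ℂ) 1) : 0 < (M z).im := by
  have h0 := one_sub_ne hz
  have hN : 0 < normSq (1 - z) := normSq_pos.mpr h0
  have h1 : normSq z < 1 := by
    have : ‖z‖ < 1 := by simpa using hz
    rw [normSq_eq_norm_sq]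
    nlinarith [norm_nonneg z]
  have h2 : (M z).im = 20 * ((1 - normSq z) / normSq (1 - z)) := by
    have h3 : M z = 99 + 20 * (I * (1 + z) * (starRingEnd ℂ (1 - z)) / (normSq (1 - z) : ℂ)) := by
      unfold M
      rw [normSq_eq_conj_mul_self]
      have h4 : (starRingEnd ℂ) (1 - z) ≠ 0 := (map_ne_zero _).mpr h0
      field_simp
    rw [h3]
    rw [add_im, show (99 : ℂ) = ((99 : ℝ) : ℂ) by norm_num, ofReal_im, zero_add,
      show (20 : ℂ) = ((20 : ℝ) : ℂ) by norm_num, im_ofReal_mul, div_ofReal_im]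
    congr 2
    simp [normSq_apply]
    ring
  rw [h2]
  have : 0 < 1 - normSq z := by linarith
  positivity

lemma Mi_M {z : ℂ} (hz : z ∈ ball (0 : ℂ) 1) : Mi (M z) = z := by
  have h0 := one_sub_ne hz
  unfold Mi M
  have hI : I ≠ 0 := I_ne_zero
  have h1 : (99 + 20 * (I * (1 + z) / (1 - z)) - (99 - 20 * I)) = 40 * I / (1 - z) := by
    field_simp
    ring
  have h2 : (99 + 20 * (I * (1 + z) / (1 - z)) - (99 + 20 * I)) = 40 * I * z / (1 - z) := by
    field_simp
    ring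
  rw [h1, h2]
  field_simp

lemma Mi_den {ξ : ℂ} (h : 0 < ξ.im) : ξ - (99 - 20 * I) ≠ 0 := by
  intro h1
  have := congrArg Complex.im h1
  simp at this
  linarith

lemma M_Mi {ξ : ℂ} (h : 0 < ξ.im) : M (Mi ξ) = ξ := by
  have hd := Mi_den h
  unfold Mi M
  have hI : I ≠ 0 := I_ne_zero
  have h1 : 1 - (ξ - (99 + 20 * I)) / (ξ - (99 - 20 * I)) = 40 * I / (ξ - (99 - 20 * I)) := by
    field_simp
    ring
  have h2 : 1 + (ξ - (99 + 20 * I)) / (ξ - (99 - 20 * I)) = 2 * (ξ - 99) / (ξ - (99 - 20 * I)) := by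
    field_simp
    ring
  rw [h1, h2]
  field_simp
  ring

lemma normSq_Mi {ξ : ℂ} (h : 0 < ξ.im) :
    normSq (Mi ξ) = 1 - 80 * (ξ.im / normSq (ξ - (99 - 20 * I))) := by
  have hd := Mi_den h
  have hN : normSq (ξ - (99 - 20 * I)) ≠ 0 := (normSq_pos.mpr hd).ne'
  unfold Mi
  rw [map_div₀]
  field_simp
  simp [normSq_apply]
  ring

lemma Mi_mem {ξ : ℂ} (h : 0 < ξ.im) : Mi ξ ∈ ball (0 : ℂ) 1 := by
  have hd := Mi_den h
  have hN : 0 < normSq (ξ - (99 - 20 * I)) := normSq_pos.mpr hd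
  have h1 := normSq_Mi h
  have h2 : 0 < ξ.im / normSq (ξ - (99 - 20 * I)) := by positivity
  have h3 : normSq (Mi ξ) < 1 := by linarith
  rw [normSq_eq_norm_sq] at h3
  have : ‖Mi ξ‖ < 1 := by nlinarith [norm_nonneg (Mi ξ)]
  simpa using this

lemma M_differentiableAt {z : ℂ} (hz : z ∈ ball (0 : ℂ) 1) : DifferentiableAt ℂ M z := by
  have h0 := one_sub_ne hz
  unfold M
  fun_prop (disch := assumption)

/-! ## The map `h` -/

/-- conformal map of the disc onto `GG` -/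
noncomputable def h (z : ℂ) : ℂ := J (g (M z))

lemma h_injOn : InjOn h (ball 0 1) := by
  intro z hz z' hz' hh
  have h1 := J_injOn (g_mem (M_im hz)) (g_mem (M_im hz')) hh
  have h2 : M z = M z' := by
    rw [← g_sq (ξ := M z), ← g_sq (ξ := M z'), h1]
    · intro h; have := M_im hz'; rw [h] at this; simp at this
    · intro h; have := M_im hz; rw [h] at this; simp at this
  rw [← Mi_M hz, ← Mi_M hz', h2]

lemma h_mem {z : ℂ} (hz : z ∈ ball (0 : ℂ) 1) : h z ∈ GG := J_mem (g_mem (M_im hz))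

lemma h_Mi {u : ℂ} (hu : u ∈ Q) : h (Mi (u ^ 2)) = J u := by
  unfold h
  rw [M_Mi (sq_im_pos hu), g_sq_eq hu]

lemma h_image : h '' ball 0 1 = GG := by
  apply Subset.antisymm
  · rintro _ ⟨z, hz, rfl⟩
    exact h_mem hz
  · intro w hw
    obtain ⟨u, hu, rfl⟩ := J_surj hw
    exact ⟨Mi (u ^ 2), Mi_mem (sq_im_pos hu), h_Mi hu⟩

lemma h_differentiableAt {z : ℂ} (hz : z ∈ ball (0 : ℂ) 1) : DifferentiableAt ℂ h z := by
  have h1 := M_differentiableAt hz
  have h2 := g_differentiableAt (M_im hz)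
  have h3 := J_differentiableAt (ne_zero_of_Q (g_mem (M_im hz)))
  exact h3.comp z (h2.comp z h1)

lemma h_zero : h 0 = (500 + 51 * I) / 101 := by
  have h1 : M 0 = (10 + I) ^ 2 := by
    unfold M
    have : I ^ 2 = -1 := I_sq
    simp
    linear_combination -this
  have hQ : (10 + I : ℂ) ∈ Q := by constructor <;> simp
  unfold h
  rw [h1, g_sq_eq hQ]
  unfold J
  have h2 : (10 + I : ℂ) ≠ 0 := ne_zero_of_Q hQ
  have : I ^ 2 = -1 := I_sq
  field_simp
  linear_combination (-1 : ℂ) * this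

/-! ## Normalisation -/

/-- real affine normalisation -/
noncomputable def T (w₀ : ℂ) (l : ℝ) (w : ℂ) : ℂ := (w - w₀) / l

lemma T_re (w₀ : ℂ) (l : ℝ) (w : ℂ) : (T w₀ l w).re = (w.re - w₀.re) / l := by
  simp [T]

lemma T_im (w₀ : ℂ) (l : ℝ) (w : ℂ) : (T w₀ l w).im = (w.im - w₀.im) / l := by
  simp [T]

lemma mem_T_image {w₀ : ℂ} {l : ℝ} (hl : 0 < l) {S : Set ℂ} {v : ℂ} :
    v ∈ T w₀ l '' S ↔ (l : ℂ) * v + w₀ ∈ S := by
  have hl' : (l : ℂ) ≠ 0 := by exact_mod_cast hl.ne'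
  constructor
  · rintro ⟨w, hw, rfl⟩
    have : (l : ℂ) * T w₀ l w + w₀ = w := by
      unfold T; field_simp; ring
    rwa [this]
  · intro h
    refine ⟨_, h, ?_⟩
    unfold T; field_simp; ring

/-- the image domain after normalisation, described explicitly -/
lemma mem_G1 {w₀ : ℂ} {l : ℝ} (hl : 0 < l) {v : ℂ} :
    v ∈ T w₀ l '' GG ↔
      0 < l * v.im + w₀.im ∧ (l * v.re + w₀.re = 0 → l * v.im + w₀.im < 1) := by
  rw [mem_T_image hl]
  simp [GG]

lemma isCIA_G1 {w₀ : ℂ} {l : ℝ} (hl : 0 < l) : IsCIA (T w₀ l '' GG) := by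
  intro c
  apply Convex.isPreconnected
  intro x hx y hy a b ha hb hab
  obtain ⟨hx1, hx2⟩ := hx
  obtain ⟨hy1, hy2⟩ := hy
  rw [mem_G1 hl] at hx1 hy1
  simp only [mem_ofPred_eq] at hx2 hy2
  refine ⟨?_, ?_⟩
  · rw [mem_G1 hl]
    have hb' : b = 1 - a := by linarith
    subst hb'
    simp only [add_re, add_im, real_smul, re_ofReal_mul, im_ofReal_mul, hx2, hy2] at *
    constructor
    · rcases ha.eq_or_lt with h | h
      · rw [← h]; simp; exact hy1.1
      · nlinarith [mul_pos h hx1.1, mul_nonneg hb hy1.1.le]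
    · intro hc
      have hc' : l * c + w₀.re = 0 := by rw [← hc]; ring
      have h1 := hx1.2 hc'
      have h2 := hy1.2 hc'
      rcases ha.eq_or_lt with h | h
      · rw [← h]; simp; exact h2
      · nlinarith [mul_pos h (sub_pos.mpr h1), mul_nonneg hb (sub_pos.mpr h2).le]
  · simp only [mem_ofPred_eq, add_re, real_smul, re_ofReal_mul, hx2, hy2]
    rw [← add_mul, hab, one_mul]

/-- the upper part of the slit domain is connected and touches `0` -/
lemma upper_part {w₀ : ℂ} {l : ℝ} (hl : 0 < l) (h1 : w₀.im < 1) (h0 : 0 < w₀.im) :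
    IsPreconnected (T w₀ l '' GG ∩ {v | 0 < v.im}) := by
  -- star-shaped about the point `p` with `l * p + w₀ = i (1 + Im w₀)/2`
  set p : ℂ := ⟨-w₀.re / l, (1 - w₀.im) / 2 / l⟩ with hp
  have hpre : l * p.re + w₀.re = 0 := by
    rw [hp]; simp only; field_simp; ring
  have hpim : l * p.im + w₀.im = (1 + w₀.im) / 2 := by
    rw [hp]; simp only; field_simp; ring
  have hstar : StarConvex ℝ p (T w₀ l '' GG ∩ {v | 0 < v.im}) := by
    intro y hy a b ha hb hab
    obtain ⟨hy1, hy2⟩ := hy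
    rw [mem_G1 hl] at hy1
    simp only [mem_ofPred_eq] at hy2
    have hp2 : 0 < p.im := by rw [hp]; simp only; apply div_pos _ hl; linarith
    refine ⟨?_, ?_⟩
    · rw [mem_G1 hl]
      simp only [add_re, add_im, real_smul, re_ofReal_mul, im_ofReal_mul]
      have hb' : a = 1 - b := by linarith
      subst hb'
      constructor
      · have : 0 < (1 - b) * p.im + b * y.im := by
          rcases hb.eq_or_lt with h | h
          · rw [← h]; simpa using hp2
          · nlinarith [mul_pos h hy2, mul_nonneg ha hp2.le]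
        nlinarith
      · intro hc
        have hc2 : b * (l * y.re + w₀.re) = 0 := by linear_combination hc - (1 - b) * hpre
        rcases mul_eq_zero.mp hc2 with h | h
        · rw [h]; simp; rw [hpim]; linarith
        · have h3 := hy1.2 h
          have h4 : l * p.im + w₀.im < 1 := by rw [hpim]; linarith
          rcases hb.eq_or_lt with h | h
          · rw [← h]; simpa using h4
          · nlinarith [mul_pos h (sub_pos.mpr h3), mul_nonneg ha (sub_pos.mpr h4).le]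
    · simp only [mem_ofPred_eq, add_im, real_smul, im_ofReal_mul]
      rcases hb.eq_or_lt with h | h
      · have : a = 1 := by linarith
        rw [← h, this]; simpa using hp2
      · nlinarith [mul_pos h hy2, mul_nonneg ha hp2.le]
  have hmem : p ∈ T w₀ l '' GG ∩ {v | 0 < v.im} := by
    refine ⟨?_, ?_⟩
    · rw [mem_G1 hl, hpim]
      exact ⟨by linarith, fun _ => by linarith⟩
    · simp only [mem_ofPred_eq]
      rw [hp]; simp only; apply div_pos _ hl; linarith
  exact (hstar.isPathConnected hmem).isConnected.isPreconnected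

lemma lower_part {w₀ : ℂ} {l : ℝ} (hl : 0 < l) (h1 : w₀.im < 1) :
    IsPreconnected (T w₀ l '' GG ∩ {v | v.im < 0}) := by
  apply Convex.isPreconnected
  intro x hx y hy a b ha hb hab
  obtain ⟨hx1, hx2⟩ := hx
  obtain ⟨hy1, hy2⟩ := hy
  rw [mem_G1 hl] at hx1 hy1
  simp only [mem_ofPred_eq] at hx2 hy2
  have hb' : b = 1 - a := by linarith
  subst hb'
  have hneg : a * x.im + (1 - a) * y.im < 0 := by
    rcases ha.eq_or_lt with h | h
    · rw [← h]; simpa using hy2
    · nlinarith [mul_pos h (neg_pos.mpr hx2), mul_nonneg hb (neg_pos.mpr hy2).le]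
  refine ⟨?_, ?_⟩
  · rw [mem_G1 hl]
    simp only [add_re, add_im, real_smul, re_ofReal_mul, im_ofReal_mul]
    constructor
    · rcases ha.eq_or_lt with h | h
      · rw [← h]; simp; exact hy1.1
      · nlinarith [mul_pos h hx1.1, mul_nonneg hb hy1.1.le]
    · intro _
      nlinarith
  · simpa only [mem_ofPred_eq, add_im, real_smul, im_ofReal_mul] using hneg

lemma slit_aux {w₀ : ℂ} {l : ℝ} (hl : 0 < l) (h0 : 0 < w₀.im)
    (U : Set ℂ) (hU : IsPreconnected U) (hUS : U ⊆ T w₀ l '' GG \ {w : ℂ | w.im = 0})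
    (e : ℝ) (he : e ≠ 0)
    (hmem : ∀ t : ℝ, 0 < t → t < w₀.im / (l * |e|) → (⟨0, e * t⟩ : ℂ) ∈ U)
    (w : ℂ) (hw : w ∈ U) :
    (0 : ℂ) ∈ frontier (connectedComponentIn (T w₀ l '' GG \ {w : ℂ | w.im = 0}) w) := by
  have hsub := hU.subset_connectedComponentIn hw hUS
  rw [frontier, mem_sdiff]
  constructor
  · apply closure_mono hsub
    have hpos : 0 < w₀.im / (l * |e|) := by positivity
    have htend : Filter.Tendsto (fun t : ℝ => (⟨0, e * t⟩ : ℂ)) (nhdsWithin 0 (Ioi 0)) (nhds 0) := by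
      have h1 : Continuous (fun t : ℝ => (⟨0, e * t⟩ : ℂ)) := by
        have : (fun t : ℝ => (⟨0, e * t⟩ : ℂ)) = fun t : ℝ => ((e * t : ℝ) : ℂ) * I := by
          funext t
          apply Complex.ext <;> simp
        rw [this]
        fun_prop
      have h2 := (h1.tendsto 0).mono_left (nhdsWithin_le_nhds (s := Ioi 0))
      have h3 : (⟨0, e * 0⟩ : ℂ) = 0 := by apply Complex.ext <;> simp
      rwa [h3] at h2
    apply mem_closure_of_tendsto htend
    filter_upwards [Ioo_mem_nhdsGT hpos] with t ht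
    exact hmem t ht.1 ht.2
  · intro h
    have h2 := interior_subset h
    have h3 := connectedComponentIn_subset _ _ h2
    exact h3.2 (by simp)

lemma slit_G1 {w₀ : ℂ} {l : ℝ} (hl : 0 < l) (h0 : 0 < w₀.im) (h1 : w₀.im < 1)
    (hre : w₀.re ≠ 0) : SlitCondition (T w₀ l '' GG) := by
  intro w hw
  obtain ⟨hw1, hw2⟩ := hw
  have hw2' : w.im ≠ 0 := hw2
  rcases lt_or_gt_of_ne hw2' with h | h
  · apply slit_aux hl h0 (T w₀ l '' GG ∩ {v | v.im < 0}) (lower_part hl h1) ?_ (-1)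
      (by norm_num) ?_ w ⟨hw1, h⟩
    · rintro x ⟨hx1, hx2⟩
      exact ⟨hx1, fun h => by simp only [mem_ofPred_eq] at h hx2; linarith⟩
    · intro t ht1 ht2
      refine ⟨?_, ?_⟩
      · rw [mem_G1 hl]
        simp only [mul_zero, zero_add]
        refine ⟨?_, fun hh => absurd hh hre⟩
        rw [abs_neg, abs_one, mul_one, lt_div_iff₀ hl] at ht2
        nlinarith
      · simp only [mem_ofPred_eq]; linarith
  · apply slit_aux hl h0 (T w₀ l '' GG ∩ {v | 0 < v.im}) (upper_part hl h1 h0) ?_ 1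
      (by norm_num) ?_ w ⟨hw1, h⟩
    · rintro x ⟨hx1, hx2⟩
      exact ⟨hx1, fun h => by simp only [mem_ofPred_eq] at h hx2; linarith⟩
    · intro t ht1 ht2
      refine ⟨?_, ?_⟩
      · rw [mem_G1 hl]
        simp only [mul_zero, zero_add]
        refine ⟨?_, fun hh => absurd hh hre⟩
        have := mul_pos hl ht1
        linarith
      · simp only [mem_ofPred_eq]; linarith

/-! ## The three points on one vertical line -/

/-- the point of the disc corresponding to `u` in the first quadrant -/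
lemma normSq_point {x y : ℝ} (hx : 0 < x) (hy : 0 < y) :
    normSq (Mi ((⟨x, y⟩ : ℂ) ^ 2)) =
      1 - 80 * (2 * x * y / ((x ^ 2 - y ^ 2 - 99) ^ 2 + (2 * x * y + 20) ^ 2)) := by
  rw [normSq_Mi (sq_im_pos ⟨hx, hy⟩)]
  congr 2
  have h1 : ((⟨x, y⟩ : ℂ) ^ 2).im = 2 * x * y := by rw [sq, mul_im]; ring
  have h2 : ((⟨x, y⟩ : ℂ) ^ 2).re = x ^ 2 - y ^ 2 := by rw [sq, mul_re]; ring
  rw [h1]
  congr 1
  rw [normSq_apply]
  simp only [sub_re, sub_im, h1, h2]
  simp
  ring

lemma exists_point (x N c : ℝ) (hx : 0 < x) (hxN : x ^ 2 < N)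
    (hc : x * (1 - 1 / N) = c) :
    ∃ y : ℝ, 0 < y ∧ y ^ 2 = N - x ^ 2 ∧ (⟨x, y⟩ : ℂ) ∈ Q ∧
      (J ⟨x, y⟩).re = c / 2 ∧ (J ⟨x, y⟩).im = y * (1 + 1 / N) / 2 := by
  have h0 : 0 < N - x ^ 2 := by linarith
  have hsq : Real.sqrt (N - x ^ 2) ^ 2 = N - x ^ 2 := Real.sq_sqrt h0.le
  have hns : normSq (⟨x, Real.sqrt (N - x ^ 2)⟩ : ℂ) = N := by
    rw [normSq_apply]
    simp only
    nlinarith
  refine ⟨Real.sqrt (N - x ^ 2), Real.sqrt_pos.mpr h0, hsq, ⟨hx, Real.sqrt_pos.mpr h0⟩, ?_, ?_⟩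
  · rw [J_re, hns]
    simp only
    rw [← hc]
    ring
  · rw [J_im, hns]
    simp only
    ring

lemma three_points : ∃ z₁ ∈ ball (0 : ℂ) 1, ∃ z₂ ∈ ball (0 : ℂ) 1, ∃ z₃ ∈ ball (0 : ℂ) 1,
    ‖z₁‖ < ‖z₂‖ ∧ ‖z₃‖ < ‖z₂‖ ∧ (h z₁).re = (h z₂).re ∧ (h z₃).re = (h z₂).re ∧
    (h z₁).im < (h z₂).im ∧ (h z₂).im < (h z₃).im := by
  obtain ⟨y₁, hy₁, hs₁, hQ₁, hr₁, hi₁⟩ := exists_point (3 / 5) (6 / 5) (1 / 10) (by norm_num)
    (by norm_num) (by norm_num)
  obtain ⟨y₂, hy₂, hs₂, hQ₂, hr₂, hi₂⟩ := exists_point (3 / 20) 3 (1 / 10) (by norm_num)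
    (by norm_num) (by norm_num)
  obtain ⟨y₃, hy₃, hs₃, hQ₃, hr₃, hi₃⟩ := exists_point (5 / 48) 25 (1 / 10) (by norm_num)
    (by norm_num) (by norm_num)
  have a₁ : 0.91 < y₁ := by nlinarith
  have b₁ : y₁ < 0.92 := by nlinarith
  have a₂ : 1.7 < y₂ := by nlinarith
  have b₂ : y₂ < 1.73 := by nlinarith
  have a₃ : 4.99 < y₃ := by nlinarith
  have b₃ : y₃ < 5 := by nlinarith
  have n₁ := normSq_point (x := 3 / 5) (by norm_num) hy₁
  have n₂ := normSq_point (x := 3 / 20) (by norm_num) hy₂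
  have n₃ := normSq_point (x := 5 / 48) (by norm_num) hy₃
  have e₁ : (1 : ℝ) / 20000 <
      2 * (3 / 5) * y₁ / (((3 / 5) ^ 2 - y₁ ^ 2 - 99) ^ 2 + (2 * (3 / 5) * y₁ + 20) ^ 2) := by
    rw [hs₁, lt_div_iff₀ (by positivity)]
    nlinarith
  have e₂ : 2 * (3 / 20) * y₂ / (((3 / 20) ^ 2 - y₂ ^ 2 - 99) ^ 2 + (2 * (3 / 20) * y₂ + 20) ^ 2)
      < (1 : ℝ) / 20000 := by
    rw [hs₂, div_lt_iff₀ (by positivity)]
    nlinarith
  have e₃ : (1 : ℝ) / 20000 <
      2 * (5 / 48) * y₃ / (((5 / 48) ^ 2 - y₃ ^ 2 - 99) ^ 2 + (2 * (5 / 48) * y₃ + 20) ^ 2) := by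
    rw [hs₃, lt_div_iff₀ (by positivity)]
    nlinarith
  refine ⟨_, Mi_mem (sq_im_pos hQ₁), _, Mi_mem (sq_im_pos hQ₂), _, Mi_mem (sq_im_pos hQ₃),
    ?_, ?_, ?_, ?_, ?_, ?_⟩
  · have : normSq (Mi ((⟨3 / 5, y₁⟩ : ℂ) ^ 2)) < normSq (Mi ((⟨3 / 20, y₂⟩ : ℂ) ^ 2)) := by
      rw [n₁, n₂]; linarith
    rw [normSq_eq_norm_sq, normSq_eq_norm_sq] at this
    exact lt_of_pow_lt_pow_left₀ 2 (norm_nonneg _) this
  · have : normSq (Mi ((⟨5 / 48, y₃⟩ : ℂ) ^ 2)) < normSq (Mi ((⟨3 / 20, y₂⟩ : ℂ) ^ 2)) := by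
      rw [n₃, n₂]; linarith
    rw [normSq_eq_norm_sq, normSq_eq_norm_sq] at this
    exact lt_of_pow_lt_pow_left₀ 2 (norm_nonneg _) this
  · rw [h_Mi hQ₁, h_Mi hQ₂, hr₁, hr₂]
  · rw [h_Mi hQ₃, h_Mi hQ₂, hr₃, hr₂]
  · rw [h_Mi hQ₁, h_Mi hQ₂, hi₁, hi₂]
    norm_num
    linarith
  · rw [h_Mi hQ₂, h_Mi hQ₃, hi₂, hi₃]
    norm_num
    linarith

/-! ## The derivative at the origin -/

lemma deriv_h_ne : deriv h 0 ≠ 0 := by
  have hQ : (10 + I : ℂ) ∈ Q := by constructor <;> simp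
  have hu0 : (10 + I : ℂ) ≠ 0 := ne_zero_of_Q hQ
  have hM0 : M 0 = (10 + I) ^ 2 := by
    unfold M
    have : I ^ 2 = -1 := I_sq
    simp
    linear_combination -this
  have hM : HasDerivAt M (40 * I) 0 := by
    have h1 : HasDerivAt (fun z : ℂ => I * (1 + z)) I 0 := by
      simpa using ((hasDerivAt_id (0 : ℂ)).const_add 1).const_mul I
    have h2 : HasDerivAt (fun z : ℂ => 1 - z) (-1) 0 := by
      simpa using (hasDerivAt_id (0 : ℂ)).const_sub 1
    have h3 := (h1.fun_div h2 (by norm_num)).const_mul 20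
    have h4 := h3.const_add 99
    have h5 : (40 * I : ℂ) =
        20 * ((I * (1 - 0) - I * (1 + 0) * (-1)) / (1 - 0) ^ 2) := by
      simp
      ring
    rw [h5]
    exact h4
  have hslit : ((10 + I : ℂ) ^ 2) ∈ slitPlane := by
    rw [mem_slitPlane_iff]; right; exact (sq_im_pos hQ).ne'
  have hg : HasDerivAt g (g ((10 + I) ^ 2) * (((10 + I : ℂ) ^ 2)⁻¹ / 2)) ((10 + I) ^ 2) :=
    ((Complex.hasDerivAt_log hslit).div_const 2).cexp
  have hJ : HasDerivAt J ((1 - -((10 + I : ℂ) ^ 2)⁻¹) / 2) (10 + I) :=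
    ((hasDerivAt_id (10 + I : ℂ)).sub (hasDerivAt_inv hu0)).div_const 2
  have hg' : HasDerivAt g (g (M 0) * (((10 + I : ℂ) ^ 2)⁻¹ / 2)) (M 0) := by rw [hM0]; exact hg
  have hJ' : HasDerivAt J ((1 - -((10 + I : ℂ) ^ 2)⁻¹) / 2) (g (M 0)) := by
    rw [hM0, g_sq_eq hQ]; exact hJ
  have hcomp := hJ'.comp (0 : ℂ) (hg'.comp (0 : ℂ) hM)
  have hd : deriv h 0 = (1 - -((10 + I : ℂ) ^ 2)⁻¹) / 2 * (g (M 0) * (((10 + I : ℂ) ^ 2)⁻¹ / 2) * (40 * I)) :=
    hcomp.deriv
  rw [hd, hM0, g_sq_eq hQ]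
  have h5 : (1 - -((10 + I : ℂ) ^ 2)⁻¹) ≠ 0 := by
    intro h
    have h6 : (10 + I : ℂ) ^ 2 + 1 = 0 := by
      field_simp at h
      linear_combination h
    have h7 := congrArg Complex.im h6
    rw [add_im, one_im, add_zero] at h7
    have := sq_im_pos hQ
    rw [h7] at this
    simp at this
  have hI : I ≠ 0 := I_ne_zero
  have h40 : (40 : ℂ) ≠ 0 := by norm_num
  have h2 : (2 : ℂ) ≠ 0 := by norm_num
  exact mul_ne_zero (div_ne_zero h5 h2) (mul_ne_zero (mul_ne_zero hu0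
    (div_ne_zero (inv_ne_zero (pow_ne_zero 2 hu0)) h2)) (mul_ne_zero h40 hI))

end Pool.Agent.Helper85.SlitCIA
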