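import Mathlib

/-!
# Convexity in the direction of the imaginary axis and the slit condition
-/

namespace Pool.Agent.Helper85.SlitCIA

/-- The set `G` is convex in the direction of the imaginary axis: every vertical line meets it in a
connected (possibly empty) set. -/
def IsCIA (G : Set ℂ) : Prop := ∀ c : ℝ, IsPreconnected (G ∩ {w : ℂ | w.re = c})

/-- Every connected component of `G ∖ ℝ` has `0` on its boundary. -/
def SlitCondition (G : Set ℂ) : Prop :=
  ∀ w ∈ G \ {w : ℂ | w.im = 0},
    (0 : ℂ) ∈ frontier (connectedComponentIn (G \ {w : ℂ | w.im = 0}) w)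

end Pool.Agent.Helper85.SlitCIA
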